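import Pool.Agent.Y297.GJ.Orth
import Pool.Agent.Y812.GJ.L2

/-!
# Splitting the residue classes according to the common divisor with the modulus
-/

set_option autoImplicit false

namespace Pool.Agent.T9h57.LM

open Finset
open Pool.Agent.Y883.GJ
open Pool.Agent.H807R2.Dav (ee)

lemma sum_zmod {r : ℕ} [NeZero r] (f : ZMod r → ℝ) : ∑ l : ZMod r, f l = ∑ x ∈ range r, f (x : ZMod r) := by
  refine Finset.sum_nbij' (fun l => l.val) (fun n => (n : ZMod r)) ?_ ?_ ?_ ?_ ?_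
  · intro l _; exact mem_range.2 (ZMod.val_lt l)
  · intro n _; exact mem_univ _
  · intro l _; exact ZMod.natCast_zmod_val l
  · intro n hn; exact ZMod.val_cast_of_lt (mem_range.1 hn)
  · intro l _; rw [ZMod.natCast_zmod_val]

/-- a class which is divisible by `d` -/
lemma cl_gcd {r d r' y : ℕ} (hr : r = d * r') (hd : 0 < d) (F : ℕ → ℂ) (β : ℝ) (m : ℕ) :
    cl r y F β ((d * m : ℕ) : ZMod r) = cl r' (y / d) (fun n => F (d * n)) (d * β) (m : ZMod r') := by
  subst hr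
  unfold cl
  refine Finset.sum_nbij' (fun n => n / d) (fun n => d * n) ?_ ?_ ?_ ?_ ?_
  · intro n hn
    rw [mem_filter, mem_Icc, ZMod.natCast_eq_natCast_iff] at hn
    obtain ⟨⟨h1, h2⟩, h3⟩ := hn
    have hdn : d ∣ n := by
      have h4 : d ∣ d * r' := Dvd.intro _ rfl
      have h5 := h3.of_mul_right r'
      exact (Nat.modEq_zero_iff_dvd.1 (h5.trans (Nat.modEq_zero_iff_dvd.2 (Dvd.intro _ rfl))))
    obtain ⟨k, rfl⟩ := hdn
    rw [Nat.mul_div_cancel_left _ hd, mem_filter, mem_Icc, ZMod.natCast_eq_natCast_iff]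
    refine ⟨⟨?_, ?_⟩, ?_⟩
    · rcases Nat.eq_zero_or_pos k with rfl | hk
      · omega
      · exact hk
    · exact (Nat.le_div_iff_mul_le hd).2 (by rw [mul_comm]; exact h2)
    · exact Nat.ModEq.mul_left_cancel' hd.ne' h3
  · intro n hn
    rw [mem_filter, mem_Icc, ZMod.natCast_eq_natCast_iff] at hn
    rw [mem_filter, mem_Icc, ZMod.natCast_eq_natCast_iff]
    refine ⟨⟨?_, ?_⟩, ?_⟩
    · exact Nat.mul_pos hd hn.1.1
    · rw [mul_comm]
      exact (Nat.le_div_iff_mul_le hd).1 hn.1.2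
    · exact Nat.ModEq.mul_left' d hn.2
  · intro n hn
    rw [mem_filter, mem_Icc, ZMod.natCast_eq_natCast_iff] at hn
    obtain ⟨⟨h1, h2⟩, h3⟩ := hn
    have hdn : d ∣ n := by
      have h5 := h3.of_mul_right r'
      exact (Nat.modEq_zero_iff_dvd.1 (h5.trans (Nat.modEq_zero_iff_dvd.2 (Dvd.intro _ rfl))))
    exact Nat.mul_div_cancel' hdn
  · intro n _
    exact Nat.mul_div_cancel_left _ hd
  · intro n hn
    rw [mem_filter, mem_Icc, ZMod.natCast_eq_natCast_iff] at hn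
    obtain ⟨⟨h1, h2⟩, h3⟩ := hn
    have hdn : d ∣ n := by
      have h5 := h3.of_mul_right r'
      exact (Nat.modEq_zero_iff_dvd.1 (h5.trans (Nat.modEq_zero_iff_dvd.2 (Dvd.intro _ rfl))))
    obtain ⟨k, rfl⟩ := hdn
    rw [Nat.mul_div_cancel_left _ hd]
    congr 2
    push_cast
    ring

open Classical in
/-- the sum over the unit classes by characters -/
lemma unit_eq {r y : ℕ} [NeZero r] (F : ℕ → ℂ) (β : ℝ) :
    ∑ m ∈ (range r).filter (fun m => m.Coprime r), ‖cl r y F β (m : ZMod r)‖ ^ 2 =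
      (r.totient : ℝ)⁻¹ * ∑ χ : DirichletCharacter ℂ r, ‖cs r y F β χ‖ ^ 2 := by
  have h1 := (Pool.Agent.Y297.GJ.orth r y F β ∅).2.2
  have hφ : (0 : ℝ) < r.totient := by exact_mod_cast Nat.totient_pos.2 (NeZero.pos r)
  rw [h1, ← mul_assoc, inv_mul_cancel₀ hφ.ne', one_mul, sum_filter, sum_filter, sum_zmod]
  refine sum_congr rfl fun m _ => ?_
  simp only [ZMod.isUnit_iff_coprime]

/-- the trivial bound for the unit classes -/
lemma unit_triv {r y : ℕ} [NeZero r] (F : ℕ → ℂ) (β : ℝ) :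
    (r.totient : ℝ)⁻¹ * ∑ χ : DirichletCharacter ℂ r, ‖cs r y F β χ‖ ^ 2 ≤
      ((y : ℝ) / r + 1) * ∑ n ∈ Icc 1 y, ‖F n‖ ^ 2 := by
  classical
  rw [← unit_eq]
  refine le_trans ?_ ((Pool.Agent.Y812.GJ.l2 r y F).2 β)
  rw [sum_zmod]
  exact sum_le_sum_of_subset_of_nonneg (filter_subset _ _) fun _ _ _ => by positivity

/-- splitting according to the common divisor -/
theorem gcd_split {r y : ℕ} [NeZero r] (F : ℕ → ℂ) (β : ℝ) (Bd : ℕ → ℝ)
    (h : ∀ d r' : ℕ, 0 < d → ∀ [NeZero r'], r = d * r' →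
      (r'.totient : ℝ)⁻¹ * ∑ χ : DirichletCharacter ℂ r', ‖cs r' (y / d) (fun n => F (d * n)) (d * β) χ‖ ^ 2 ≤ Bd d) :
    ∑ l : ZMod r, ‖cl r y F β l‖ ^ 2 ≤ ∑ d ∈ r.divisors, Bd d := by
  classical
  have hr0 : 0 < r := NeZero.pos r
  rw [sum_zmod, ← sum_fiberwise_of_maps_to (s := range r) (t := r.divisors) (g := fun x => Nat.gcd x r)
    (fun x _ => Nat.mem_divisors.2 ⟨Nat.gcd_dvd_right _ _, hr0.ne'⟩)]
  refine sum_le_sum fun d hd => ?_
  obtain ⟨r', hr'⟩ := Nat.dvd_of_mem_divisors hd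
  have hd0 : 0 < d := Nat.pos_of_mem_divisors hd
  have hr'0 : 0 < r' := by
    rcases Nat.eq_zero_or_pos r' with h0 | h0
    · rw [h0, mul_zero] at hr'
      omega
    · exact h0
  haveI : NeZero r' := ⟨hr'0.ne'⟩
  refine le_trans (le_of_eq ?_) (h d r' hd0 hr')
  rw [← unit_eq]
  refine Finset.sum_nbij' (fun x => x / d) (fun m => d * m) ?_ ?_ ?_ ?_ ?_
  · intro x hx
    rw [mem_filter, mem_range] at hx
    rw [mem_filter, mem_range]
    have hdx : d ∣ x := by rw [← hx.2]; exact Nat.gcd_dvd_left _ _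
    obtain ⟨k, rfl⟩ := hdx
    rw [Nat.mul_div_cancel_left _ hd0]
    have h2 := hx.2
    rw [hr', Nat.gcd_mul_left] at h2
    refine ⟨?_, ?_⟩
    · have h3 : d * k < d * r' := by rw [← hr']; exact hx.1
      exact Nat.lt_of_mul_lt_mul_left h3
    · exact Nat.eq_of_mul_eq_mul_left hd0 (by rw [h2, mul_one])
  · intro m hm
    rw [mem_filter, mem_range] at hm
    rw [mem_filter, mem_range]
    refine ⟨?_, ?_⟩
    · rw [hr']
      exact Nat.mul_lt_mul_of_pos_left hm.1 hd0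
    · rw [hr', Nat.gcd_mul_left]
      rw [show Nat.gcd m r' = 1 from hm.2, mul_one]
  · intro x hx
    rw [mem_filter, mem_range] at hx
    have hdx : d ∣ x := by rw [← hx.2]; exact Nat.gcd_dvd_left _ _
    exact Nat.mul_div_cancel' hdx
  · intro m _
    exact Nat.mul_div_cancel_left _ hd0
  · intro x hx
    rw [mem_filter, mem_range] at hx
    have hdx : d ∣ x := by rw [← hx.2]; exact Nat.gcd_dvd_left _ _
    obtain ⟨k, rfl⟩ := hdx
    rw [Nat.mul_div_cancel_left _ hd0, cl_gcd hr' hd0]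

end Pool.Agent.T9h57.LM
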