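import Pool.Agent.T9h57.LM.Prm2
import Pool.Agent.N403.QG.LamSW
import Pool.Agent.R460.GS.J1
import Pool.Agent.Helper923.HMertens

/-!
# The inequality of Turán and Kubilius
-/

set_option autoImplicit false

namespace Pool.Agent.T9h57.LM

open Finset
open Pool.Agent.N403.QG (la la_abs la_mul la_one la_eq)

/-- the primes in `(W, Z]` -/
def PR (W Z : ℕ) : Finset ℕ := (Ioc W Z).filter Nat.Prime

/-- the sum of the reciprocals of these primes -/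
noncomputable def EE (W Z : ℕ) : ℝ := ∑ p ∈ PR W Z, (1 : ℝ) / p

/-- the number of the prime factors in `(W, Z]` -/
noncomputable def om (W Z n : ℕ) : ℝ := ∑ p ∈ PR W Z, if p ∣ n then (1 : ℝ) else 0

/-- the function of Liouville with complex values -/
noncomputable def lc (n : ℕ) : ℂ := (la n : ℂ)

lemma cnt (d N : ℕ) : ∑ n ∈ Icc 1 N, (if d ∣ n then (1 : ℝ) else 0) = ((N / d : ℕ) : ℝ) := by
  rw [← sum_filter, sum_const, nsmul_eq_mul, mul_one]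
  congr 1
  have h : (Icc 1 N) = Ioc 0 N := by
    ext n
    rw [mem_Icc, mem_Ioc]
    omega
  rw [h]
  exact Nat.Ioc_filter_dvd_card_eq_div N d

lemma PR_mem {W Z p : ℕ} : p ∈ PR W Z ↔ (W < p ∧ p ≤ Z) ∧ p.Prime := by
  unfold PR
  rw [mem_filter, mem_Ioc]

lemma EE_nonneg (W Z : ℕ) : 0 ≤ EE W Z := sum_nonneg fun p _ => by positivity

lemma om_nonneg (W Z n : ℕ) : 0 ≤ om W Z n := sum_nonneg fun p _ => by split_ifs <;> norm_num

lemma om_sum {W Z N : ℕ} : (N : ℝ) * EE W Z - Z ≤ ∑ n ∈ Icc 1 N, om W Z n := by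
  unfold om EE
  rw [sum_comm, mul_sum]
  have h1 : ((PR W Z).card : ℝ) ≤ Z := by
    have h2 : (PR W Z).card ≤ (Ioc W Z).card := card_filter_le _ _
    rw [Nat.card_Ioc] at h2
    exact_mod_cast h2.trans (Nat.sub_le _ _)
  have h3 : ∀ p ∈ PR W Z, (N : ℝ) * (1 / p) - 1 ≤ ∑ n ∈ Icc 1 N, (if p ∣ n then (1 : ℝ) else 0) := by
    intro p hp
    have hp0 : (0 : ℝ) < p := by exact_mod_cast (PR_mem.1 hp).2.pos
    rw [cnt]
    have h4 : N < p * (N / p + 1) := Nat.lt_mul_div_succ N (PR_mem.1 hp).2.pos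
    have h5 : (N : ℝ) < p * (((N / p : ℕ) : ℝ) + 1) := by exact_mod_cast h4
    have h6 : (N : ℝ) * (1 / p) < ((N / p : ℕ) : ℝ) + 1 := by
      rw [mul_one_div, div_lt_iff₀ hp0]
      linarith
    linarith
  have h7 := sum_le_sum h3
  rw [sum_sub_distrib, sum_const, nsmul_eq_mul, mul_one] at h7
  linarith

lemma om_sq_sum {W Z N : ℕ} : ∑ n ∈ Icc 1 N, om W Z n ^ 2 ≤ (N : ℝ) * EE W Z ^ 2 + N * EE W Z := by
  have h1 : ∀ n ∈ Icc 1 N, om W Z n ^ 2 = ∑ p ∈ PR W Z, ∑ p' ∈ PR W Z,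
      (if p ∣ n then (1 : ℝ) else 0) * (if p' ∣ n then (1 : ℝ) else 0) := by
    intro n _
    unfold om
    rw [sq, sum_mul_sum]
  rw [sum_congr rfl h1, sum_comm]
  have h2 : ∀ p ∈ PR W Z, ∑ n ∈ Icc 1 N, ∑ p' ∈ PR W Z,
      (if p ∣ n then (1 : ℝ) else 0) * (if p' ∣ n then (1 : ℝ) else 0) ≤
      ∑ p' ∈ PR W Z, ((N : ℝ) * ((1 / p) * (1 / p')) + if p' = p then (N : ℝ) * (1 / p) else 0) := by
    intro p hp
    rw [sum_comm]
    refine sum_le_sum fun p' hp' => ?_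
    by_cases hpp : p' = p
    · subst hpp
      rw [if_pos rfl]
      have e1 : ∑ n ∈ Icc 1 N, (if p' ∣ n then (1 : ℝ) else 0) * (if p' ∣ n then (1 : ℝ) else 0) =
          ∑ n ∈ Icc 1 N, (if p' ∣ n then (1 : ℝ) else 0) := by
        refine sum_congr rfl fun n _ => ?_
        split_ifs <;> norm_num
      rw [e1, cnt]
      have e2 : ((N / p' : ℕ) : ℝ) ≤ (N : ℝ) * (1 / p') := by
        rw [mul_one_div]
        exact Nat.cast_div_le
      have e3 : 0 ≤ (N : ℝ) * ((1 / p') * (1 / p')) := by positivity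
      linarith
    · rw [if_neg hpp, add_zero]
      have hc : p.Coprime p' := (Nat.coprime_primes (PR_mem.1 hp).2 (PR_mem.1 hp').2).2 (Ne.symm hpp)
      have e1 : ∑ n ∈ Icc 1 N, (if p ∣ n then (1 : ℝ) else 0) * (if p' ∣ n then (1 : ℝ) else 0) =
          ∑ n ∈ Icc 1 N, (if p * p' ∣ n then (1 : ℝ) else 0) := by
        refine sum_congr rfl fun n _ => ?_
        by_cases h3 : p ∣ n
        · by_cases h4 : p' ∣ n
          · rw [if_pos h3, if_pos h4, if_pos (Nat.Coprime.mul_dvd_of_dvd_of_dvd hc h3 h4), one_mul]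
          · rw [if_neg h4, mul_zero, if_neg (fun h => h4 (dvd_trans (Dvd.intro_left _ rfl) h))]
        · rw [if_neg h3, zero_mul, if_neg (fun h => h3 (dvd_trans (Dvd.intro _ rfl) h))]
      rw [e1, cnt]
      calc ((N / (p * p') : ℕ) : ℝ) ≤ (N : ℝ) / ((p * p' : ℕ) : ℝ) := Nat.cast_div_le
        _ = (N : ℝ) * ((1 / p) * (1 / p')) := by
            push_cast
            field_simp
  refine (sum_le_sum h2).trans (le_of_eq ?_)
  have h3 : ∀ p ∈ PR W Z, ∑ p' ∈ PR W Z, ((N : ℝ) * ((1 / p) * (1 / p')) + if p' = p then (N : ℝ) * (1 / p) else 0) =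
      (N : ℝ) * ((1 / p) * EE W Z) + N * (1 / p) := by
    intro p hp
    rw [sum_add_distrib, sum_ite_eq' , if_pos hp]
    unfold EE
    rw [mul_sum, mul_sum]
  rw [sum_congr rfl h3, sum_add_distrib, ← mul_sum, ← mul_sum, ← sum_mul]
  unfold EE
  ring

/-- the inequality of Turán and Kubilius -/
theorem tk {W Z N : ℕ} (hZN : Z ≤ N) (hE : 0 < EE W Z) :
    ∑ n ∈ Icc 1 N, (1 - om W Z n / EE W Z) ^ 2 ≤ 3 * N / EE W Z := by
  obtain ⟨E, hEd⟩ : ∃ E, E = EE W Z := ⟨_, rfl⟩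
  have h1 := om_sum (W := W) (Z := Z) (N := N)
  have h2 := om_sq_sum (W := W) (Z := Z) (N := N)
  rw [← hEd] at h1 h2 hE ⊢
  have hZNr : (Z : ℝ) ≤ N := by exact_mod_cast hZN
  have h3 : ∑ n ∈ Icc 1 N, (1 - om W Z n / E) ^ 2 =
      N - 2 / E * ∑ n ∈ Icc 1 N, om W Z n + 1 / E ^ 2 * ∑ n ∈ Icc 1 N, om W Z n ^ 2 := by
    rw [mul_sum, mul_sum]
    have h4 : (N : ℝ) = ∑ n ∈ Icc 1 N, (1 : ℝ) := by
      rw [sum_const, Nat.card_Icc, nsmul_eq_mul, mul_one, Nat.add_sub_cancel]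
    conv_rhs => rw [h4]
    rw [← sum_sub_distrib, ← sum_add_distrib]
    refine sum_congr rfl fun n _ => ?_
    field_simp
    ring
  rw [h3]
  have h4 : 2 / E * (N * E - Z) ≤ 2 / E * ∑ n ∈ Icc 1 N, om W Z n :=
    mul_le_mul_of_nonneg_left h1 (by positivity)
  have h5 : 1 / E ^ 2 * ∑ n ∈ Icc 1 N, om W Z n ^ 2 ≤ 1 / E ^ 2 * (N * E ^ 2 + N * E) :=
    mul_le_mul_of_nonneg_left h2 (by positivity)
  have h6 : 2 / E * (N * E - Z) = 2 * N - 2 * Z / E := by field_simp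
  have h7 : 1 / E ^ 2 * ((N : ℝ) * E ^ 2 + N * E) = N + N / E := by field_simp
  have h8 : 2 * (Z : ℝ) / E ≤ 2 * N / E := by gcongr
  have h9 : 3 * (N : ℝ) / E = 2 * N / E + N / E := by ring
  rw [h6] at h4
  rw [h7] at h5
  rw [h9]
  linarith

/-! ### The Liouville function -/

lemma lc_mul (m n : ℕ) : lc (m * n) = lc m * lc n := by
  unfold lc
  rw [la_mul]
  push_cast
  ring

lemma lc_norm (n : ℕ) : ‖lc n‖ ≤ 1 := by
  unfold lc
  rw [Complex.norm_real, Real.norm_eq_abs]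
  exact la_abs n

lemma lc_prime {p : ℕ} (hp : p.Prime) : lc p = -1 := by
  unfold lc
  rw [la_eq hp.ne_zero, ArithmeticFunction.cardFactors_apply_prime hp]
  norm_num

/-- the main part -/
noncomputable def Gw (W Z n : ℕ) : ℂ := (om W Z n : ℂ) * lc n

open Classical in
lemma Gw_eq {W Z n : ℕ} (hn : 1 ≤ n) : Gw W Z n = -∑ d ∈ n.divisors, pa W Z d * lc (n / d) := by
  have hset : n.divisors.filter (fun d => d.Prime ∧ W < d ∧ d ≤ Z) = (PR W Z).filter (fun p => p ∣ n) := by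
    ext p
    rw [mem_filter, mem_filter, PR_mem, Nat.mem_divisors]
    constructor
    · rintro ⟨⟨h1, h2⟩, h3, h4, h5⟩
      exact ⟨⟨⟨h4, h5⟩, h3⟩, h1⟩
    · rintro ⟨⟨⟨h4, h5⟩, h3⟩, h1⟩
      exact ⟨⟨h1, by omega⟩, h3, h4, h5⟩
  have h1 : ∑ d ∈ n.divisors, pa W Z d * lc (n / d) = ∑ p ∈ (PR W Z).filter (fun p => p ∣ n), -lc n := by
    rw [← hset, sum_filter]
    refine sum_congr rfl fun d hd => ?_
    unfold pa
    by_cases h : d.Prime ∧ W < d ∧ d ≤ Z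
    · rw [if_pos h, if_pos h, one_mul]
      have h2 : lc n = lc d * lc (n / d) := by
        rw [← lc_mul, Nat.mul_div_cancel' (Nat.dvd_of_mem_divisors hd)]
      rw [h2, lc_prime h.1]
      ring
    · rw [if_neg h, if_neg h, zero_mul]
  rw [h1, sum_const, nsmul_eq_mul]
  unfold Gw om
  rw [← sum_filter, sum_const, nsmul_eq_mul, mul_one]
  push_cast
  ring

lemma om_mul {W Z d n : ℕ} (hd : ∀ p : ℕ, p.Prime → p ∣ d → p ≤ W) : om W Z (d * n) = om W Z n := by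
  unfold om
  refine sum_congr rfl fun p hp => ?_
  rw [PR_mem] at hp
  have h1 : p ∣ d * n ↔ p ∣ n := by
    rw [hp.2.dvd_mul]
    constructor
    · rintro (h | h)
      · have := hd p hp.2 h
        omega
      · exact h
    · exact Or.inr
  simp only [h1]

lemma Gw_mul {W Z d n : ℕ} (hd : ∀ p : ℕ, p.Prime → p ∣ d → p ≤ W) : Gw W Z (d * n) = lc d * Gw W Z n := by
  unfold Gw
  rw [om_mul hd, lc_mul]
  ring

lemma om_le {W Z n : ℕ} (hn : 1 ≤ n) : om W Z n ≤ (n.divisors.card : ℝ) := by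
  classical
  unfold om
  rw [← sum_filter, sum_const, nsmul_eq_mul, mul_one]
  have h : (PR W Z).filter (fun p => p ∣ n) ⊆ n.divisors := by
    intro p hp
    rw [mem_filter] at hp
    exact Nat.mem_divisors.2 ⟨hp.2, by omega⟩
  exact_mod_cast card_le_card h

lemma Gw_norm {W Z n : ℕ} (hn : 1 ≤ n) : ‖Gw W Z n‖ ≤ (n.divisors.card : ℝ) := by
  unfold Gw
  rw [norm_mul, Complex.norm_real, Real.norm_eq_abs, abs_of_nonneg (om_nonneg _ _ _)]
  calc om W Z n * ‖lc n‖ ≤ om W Z n * 1 := mul_le_mul_of_nonneg_left (lc_norm n) (om_nonneg _ _ _)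
    _ = om W Z n := mul_one _
    _ ≤ _ := om_le hn

/-- the sum of the reciprocals is large -/
theorem EE_big (E0 : ℝ) {κ₁ κ₂ : ℝ} (h1 : 0 < κ₁) (h12 : κ₁ < κ₂) (hr : Real.exp (E0 + 1) * κ₁ ≤ κ₂) :
    ∃ N₀ : ℕ, ∀ N : ℕ, N₀ ≤ N → E0 ≤ EE ⌊(N : ℝ) ^ κ₁⌋₊ ⌊(N : ℝ) ^ κ₂⌋₊ := by
  obtain ⟨C, hC0, hC⟩ := Pool.Agent.Helper923.HMertens.mertens_ratio
  have h2 : 0 < κ₂ := h1.trans h12
  obtain ⟨b, hb⟩ : ∃ b : ℝ, b = (2 * C + 2) / κ₁ + 3 / κ₂ := ⟨_, rfl⟩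
  obtain ⟨N₀, hN₀⟩ : ∃ N₀ : ℕ, ∀ N : ℕ, N₀ ≤ N → b ≤ Real.log N :=
    Filter.eventually_atTop.1 ((Real.tendsto_log_atTop.comp tendsto_natCast_atTop_atTop).eventually_ge_atTop b)
  refine ⟨N₀ + 1, fun N hN => ?_⟩
  have hL := hN₀ N (by omega)
  have hN0 : (0 : ℝ) < N := by exact_mod_cast (by omega : 0 < N)
  have hNr1 : (1 : ℝ) ≤ N := by exact_mod_cast (by omega : 1 ≤ N)
  obtain ⟨L, hLd⟩ : ∃ L, L = Real.log (N : ℝ) := ⟨_, rfl⟩
  rw [← hLd] at hL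
  have hb1 : 2 * C + 2 ≤ κ₁ * L := by
    have : (2 * C + 2) / κ₁ ≤ L := by
      have : 0 ≤ 3 / κ₂ := by positivity
      linarith
    rw [div_le_iff₀ h1] at this
    linarith
  have hb2 : 3 ≤ κ₂ * L := by
    have : 3 / κ₂ ≤ L := by
      have : 0 ≤ (2 * C + 2) / κ₁ := by positivity
      linarith
    rw [div_le_iff₀ h2] at this
    linarith
  have hL0 : 0 < L := by
    by_contra hc
    push Not at hc
    nlinarith
  obtain ⟨w, hw⟩ : ∃ w, w = (N : ℝ) ^ κ₁ := ⟨_, rfl⟩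
  obtain ⟨z, hz⟩ : ∃ z, z = (N : ℝ) ^ κ₂ := ⟨_, rfl⟩
  have hlw : Real.log w = κ₁ * L := by rw [hw, Real.log_rpow hN0, hLd]
  have hlz : Real.log z = κ₂ * L := by rw [hz, Real.log_rpow hN0, hLd]
  have hw0 : 0 < w := by rw [hw]; positivity
  have hz0 : 0 < z := by rw [hz]; positivity
  have hwz : w ≤ z := by
    rw [hw, hz]
    exact Real.rpow_le_rpow_of_exponent_le hNr1 h12.le
  have hw4 : 4 ≤ w := by
    have h3 := Real.add_one_le_exp (Real.log w)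
    have h4 : Real.exp 2 ≤ w := by
      rw [← Real.exp_log hw0]
      apply Real.exp_le_exp.2
      rw [hlw]
      linarith
    have h5 := Real.exp_one_gt_d9
    have h6 : Real.exp 2 = Real.exp 1 * Real.exp 1 := by rw [← Real.exp_add]; norm_num
    nlinarith
  rw [← hw, ← hz]
  have hW2 : 2 ≤ ⌊w⌋₊ := Nat.le_floor (by push_cast; linarith)
  have hWZ : ⌊w⌋₊ ≤ ⌊z⌋₊ := Nat.floor_le_floor hwz
  have hk := hC ⌊w⌋₊ ⌊z⌋₊ hW2 hWZ
  have hWr : (2 : ℝ) ≤ (⌊w⌋₊ : ℝ) := by exact_mod_cast hW2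
  have hZr : (2 : ℝ) ≤ (⌊z⌋₊ : ℝ) := by exact_mod_cast hW2.trans hWZ
  have hlog2 := Real.log_two_lt_d9
  have hlW : Real.log (⌊w⌋₊ : ℝ) ≤ κ₁ * L := by
    rw [← hlw]
    exact Real.log_le_log (by linarith) (Nat.floor_le hw0.le)
  have hlW' : κ₁ * L - Real.log 2 ≤ Real.log (⌊w⌋₊ : ℝ) := by
    rw [← hlw, ← Real.log_div hw0.ne' (by norm_num)]
    apply Real.log_le_log (by positivity)
    have := Nat.lt_floor_add_one w
    linarith
  have hlZ' : κ₂ * L - Real.log 2 ≤ Real.log (⌊z⌋₊ : ℝ) := by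
    rw [← hlz, ← Real.log_div hz0.ne' (by norm_num)]
    apply Real.log_le_log (by positivity)
    have := Nat.lt_floor_add_one z
    linarith
  have hlW0 : 0 < Real.log (⌊w⌋₊ : ℝ) := Real.log_pos (by linarith)
  have e1 : C / Real.log (⌊w⌋₊ : ℝ) ≤ 1 / 2 := by
    rw [div_le_iff₀ hlW0]
    linarith
  have e2 : E0 + 1 / 2 ≤ Real.log (Real.log (⌊z⌋₊ : ℝ) / Real.log (⌊w⌋₊ : ℝ)) := by
    rw [Real.le_log_iff_exp_le (div_pos (by linarith) hlW0), le_div_iff₀ hlW0]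
    have e3 : Real.exp (E0 + 1 / 2) * Real.exp (1 / 2) = Real.exp (E0 + 1) := by
      rw [← Real.exp_add]
      congr 1
      ring
    have e4 : (3 : ℝ) / 2 ≤ Real.exp (1 / 2) := by
      have := Real.add_one_le_exp (1 / 2 : ℝ)
      linarith
    have e5 := Real.exp_pos (E0 + 1 / 2)
    have e6 : Real.exp (E0 + 1 / 2) * (3 / 2) * κ₁ ≤ κ₂ := by
      refine le_trans ?_ hr
      rw [← e3]
      gcongr
    calc Real.exp (E0 + 1 / 2) * Real.log (⌊w⌋₊ : ℝ) ≤ Real.exp (E0 + 1 / 2) * (κ₁ * L) := by gcongr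
      _ = 2 / 3 * (Real.exp (E0 + 1 / 2) * (3 / 2) * κ₁) * L := by ring
      _ ≤ 2 / 3 * κ₂ * L := by gcongr
      _ ≤ κ₂ * L - Real.log 2 := by nlinarith
      _ ≤ _ := hlZ'
  have e7 := (abs_le.1 hk).1
  have e8 : EE ⌊w⌋₊ ⌊z⌋₊ = ∑ p ∈ (Ioc ⌊w⌋₊ ⌊z⌋₊).filter Nat.Prime, (1 : ℝ) / p := rfl
  rw [e8]
  linarith

end Pool.Agent.T9h57.LM
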