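import Pool.Agent.T9h57.LM.Bil
import Pool.Agent.T9h57.LM.Gcd
import Pool.Agent.T9h57.LM.TK
import Pool.Agent.Y697.GJ.LiftC

/-!
# The main part in residue classes: reduction to characters
-/

set_option autoImplicit false

namespace Pool.Agent.T9h57.LM

open Finset
open Pool.Agent.Y883.GJ
open Pool.Agent.H807R2.Dav (ee)
open Pool.Agent.T9h57.PK (rad)

/-- from the modulus `q` to a multiple -/
lemma refine_sum {k q N : ℕ} [NeZero q] [NeZero (k * q)] (F : ℕ → ℂ) (β : ℝ) :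
    ∑ l : ZMod q, ‖cl q N F β l‖ ^ 2 ≤ k * ∑ l' : ZMod (k * q), ‖cl (k * q) N F β l'‖ ^ 2 := by
  classical
  obtain ⟨φ, hφ⟩ : ∃ φ : ZMod (k * q) →+* ZMod q, φ = ZMod.castHom (Dvd.intro_left k rfl : q ∣ k * q) (ZMod q) := ⟨_, rfl⟩
  have h1 : ∀ l : ZMod q, ‖cl q N F β l‖ ^ 2 ≤
      k * ∑ l' ∈ univ.filter (fun x => φ x = l), ‖cl (k * q) N F β l'‖ ^ 2 := by
    intro l
    rw [Pool.Agent.Y697.GJ.cl_fib φ F β l]
    have h2 : (univ.filter (fun x => φ x = l)).card ≤ k := by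
      refine le_trans (le_of_eq ?_) (Pool.Agent.Y614.GJ.Core.card_above k q l)
      congr 1
      refine filter_congr fun x _ => ?_
      rw [hφ, ZMod.castHom_apply, ZMod.natCast_val]
    have h3 : (((univ.filter (fun x => φ x = l)).card : ℕ) : ℝ) ≤ k := by exact_mod_cast h2
    calc ‖∑ l' ∈ univ.filter (fun x => φ x = l), cl (k * q) N F β l'‖ ^ 2 ≤
        (∑ l' ∈ univ.filter (fun x => φ x = l), ‖cl (k * q) N F β l'‖) ^ 2 :=
          pow_le_pow_left₀ (norm_nonneg _) (norm_sum_le _ _) 2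
      _ ≤ (univ.filter (fun x => φ x = l)).card * ∑ l' ∈ univ.filter (fun x => φ x = l), ‖cl (k * q) N F β l'‖ ^ 2 :=
          sq_sum_le_card_mul_sum_sq
      _ ≤ _ := mul_le_mul_of_nonneg_right h3 (sum_nonneg fun _ _ => by positivity)
  refine (sum_le_sum fun l _ => h1 l).trans (le_of_eq ?_)
  rw [← mul_sum]
  congr 1
  exact sum_fiberwise univ φ (fun x => ‖cl (k * q) N F β x‖ ^ 2)

lemma cs_Gw {W Z d r y : ℕ} (hd : ∀ p : ℕ, p.Prime → p ∣ d → p ≤ W) (β : ℝ) (χ : DirichletCharacter ℂ r) :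
    cs r y (fun n => Gw W Z (d * n)) β χ = lc d * cs r y (Gw W Z) β χ := by
  unfold cs
  rw [mul_sum]
  refine sum_congr rfl fun n _ => ?_
  beta_reduce
  rw [Gw_mul hd]
  ring

/-- summation over the common divisors -/
theorem gsum (A : ℕ) : ∃ N₀ : ℕ, ∀ N : ℕ, N₀ ≤ N → ∀ (r : ℕ) [NeZero r], r ≤ N → ∀ W Z : ℕ,
    (∀ p : ℕ, p.Prime → p ∣ r → p ≤ W) → ∀ β : ℝ,
    (∀ d r' : ℕ, 0 < d → (d : ℝ) ≤ (N : ℝ) ^ (1 / 4 : ℝ) → ∀ [NeZero r'], r = d * r' →
      ∑ χ : DirichletCharacter ℂ r', ‖cs r' (N / d) (Gw W Z) (d * β) χ‖ ^ 2 ≤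
        ((N : ℝ) / d) ^ 2 / Real.log N ^ (A + 4)) →
    ∑ l : ZMod r, ‖cl r N (Gw W Z) β l‖ ^ 2 ≤ (N : ℝ) ^ 2 / (r * Real.log N ^ A) := by
  obtain ⟨Cd, hCd0, hCd⟩ := Pool.Agent.Helper112.divisor_bound (1 / 8) (by norm_num)
  obtain ⟨N₁, hN₁⟩ := Filter.eventually_atTop.1
    (Pool.Agent.Y614.GJ.Core.ev_log (A + 5) (s := 1 / 8) (by norm_num) (64 * Cd + 4))
  refine ⟨N₁ + 1, fun N hN r _ hrN W Z hp β hsmall => ?_⟩
  obtain ⟨hL1, hLp⟩ := hN₁ N (by omega)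
  have hN1 : 1 ≤ N := by omega
  have hNr1 : (1 : ℝ) ≤ N := by exact_mod_cast hN1
  have hN0 : (0 : ℝ) < N := by linarith
  obtain ⟨L, hL⟩ : ∃ L, L = Real.log (N : ℝ) := ⟨_, rfl⟩
  rw [← hL] at hL1 hLp hsmall ⊢
  have hL4 : 4 ≤ L := by linarith
  have hL0 : 0 < L := by linarith
  have hLo : 1 ≤ L := by linarith
  have hr0 : (0 : ℝ) < r := by exact_mod_cast NeZero.pos r
  have hrNr : (r : ℝ) ≤ N := by exact_mod_cast hrN
  obtain ⟨D, hD⟩ : ∃ D : ℝ, D = (N : ℝ) ^ (1 / 4 : ℝ) := ⟨_, rfl⟩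
  have hD0 : 0 < D := by rw [hD]; positivity
  rw [← hD] at hsmall
  have hmain := gcd_split (r := r) (y := N) (Gw W Z) β
    (fun d => (N : ℝ) ^ 2 / (r * L ^ (A + 2)) * (1 / d) + 32 * N ^ 2 * L ^ 4 / (r * D)) ?_
  · refine hmain.trans ?_
    rw [sum_add_distrib, ← mul_sum, sum_const, nsmul_eq_mul]
    have h1 : ∑ d ∈ r.divisors, (1 : ℝ) / d ≤ 2 * L := by
      have h2 : ∑ d ∈ r.divisors, (1 : ℝ) / d ≤ ∑ d ∈ Icc 1 N, (1 : ℝ) / d := by
        refine sum_le_sum_of_subset_of_nonneg ?_ fun _ _ _ => by positivity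
        intro d hd
        rw [mem_Icc]
        exact ⟨Nat.pos_of_mem_divisors hd, (Nat.divisor_le hd).trans hrN⟩
      have h3 := harmonic_le_one_add_log N
      rw [harmonic_eq_sum_Icc] at h3
      push_cast at h3
      rw [← hL] at h3
      have h4 : ∑ d ∈ Icc 1 N, (1 : ℝ) / d = ∑ i ∈ Icc 1 N, ((i : ℝ))⁻¹ :=
        sum_congr rfl fun d _ => one_div _
      linarith
    have h5 : (r.divisors.card : ℝ) ≤ Cd * (N : ℝ) ^ (1 / 8 : ℝ) := by
      refine (hCd r (NeZero.pos r)).trans ?_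
      gcongr
    have h6 : (N : ℝ) ^ (1 / 8 : ℝ) * (N : ℝ) ^ (1 / 8 : ℝ) = D := by
      rw [hD, ← Real.rpow_add hN0]
      norm_num
    have h7 : (N : ℝ) ^ 2 / (r * L ^ (A + 2)) * (2 * L) ≤ (N : ℝ) ^ 2 / (r * L ^ A) / 2 := by
      have : (N : ℝ) ^ 2 / (r * L ^ (A + 2)) * (2 * L) = (N : ℝ) ^ 2 / (r * L ^ A) * (2 / L) := by
        rw [pow_add]
        field_simp
      rw [this, div_eq_mul_one_div _ (2 : ℝ)]
      refine mul_le_mul_of_nonneg_left ?_ (by positivity)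
      rw [div_le_div_iff₀ hL0 (by norm_num)]
      linarith
    have h8 : (r.divisors.card : ℝ) * (32 * N ^ 2 * L ^ 4 / (r * D)) ≤ (N : ℝ) ^ 2 / (r * L ^ A) / 2 := by
      calc (r.divisors.card : ℝ) * (32 * N ^ 2 * L ^ 4 / (r * D)) ≤
          (Cd * (N : ℝ) ^ (1 / 8 : ℝ)) * (32 * N ^ 2 * L ^ 4 / (r * D)) := by gcongr
        _ = (N : ℝ) ^ 2 / (r * L ^ A) / 2 * ((64 * Cd * L ^ (A + 4)) / (N : ℝ) ^ (1 / 8 : ℝ)) := by
            rw [← h6, pow_add]
            field_simp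
            ring
        _ ≤ (N : ℝ) ^ 2 / (r * L ^ A) / 2 * 1 := by
            refine mul_le_mul_of_nonneg_left ?_ (by positivity)
            rw [div_le_one (by positivity)]
            calc 64 * Cd * L ^ (A + 4) ≤ L * L ^ (A + 4) := by gcongr; linarith
              _ = L ^ (A + 5) := by ring
              _ ≤ _ := hLp
        _ = _ := mul_one _
    have h9 : (N : ℝ) ^ 2 / (r * L ^ (A + 2)) * ∑ d ∈ r.divisors, (1 : ℝ) / d ≤
        (N : ℝ) ^ 2 / (r * L ^ (A + 2)) * (2 * L) := by gcongr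
    linarith
  intro d r' hd0 _ hr
  have hdr : d ∣ r := ⟨r', hr⟩
  have hdp : ∀ p : ℕ, p.Prime → p ∣ d → p ≤ W := fun p hp1 hp2 => hp p hp1 (hp2.trans hdr)
  have hd0r : (0 : ℝ) < d := by exact_mod_cast hd0
  have hr'0 : (0 : ℝ) < r' := by exact_mod_cast NeZero.pos r'
  have hrr : (r : ℝ) = d * r' := by exact_mod_cast hr
  have hφ0 : (0 : ℝ) < r'.totient := by exact_mod_cast Nat.totient_pos.2 (NeZero.pos r')
  have hr'N : (r' : ℝ) ≤ N := by
    refine le_trans ?_ hrNr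
    rw [hrr]
    have : (1 : ℝ) ≤ d := by exact_mod_cast hd0
    nlinarith
  rcases le_or_gt (d : ℝ) D with hdD | hdD
  · have h1 := hsmall d r' hd0 hdD hr
    have h2 : ∑ χ : DirichletCharacter ℂ r', ‖cs r' (N / d) (fun n => Gw W Z (d * n)) (d * β) χ‖ ^ 2 ≤
        ((N : ℝ) / d) ^ 2 / L ^ (A + 4) := by
      refine le_trans (sum_le_sum fun χ _ => ?_) h1
      rw [cs_Gw hdp, norm_mul, mul_pow]
      exact mul_le_of_le_one_left (by positivity) (pow_le_one₀ (norm_nonneg _) (lc_norm d))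
    have e5 : ((r'.totient : ℝ))⁻¹ ≤ 3 * L / r' := by
      have h1 := Pool.Agent.Y614.GJ.Core.q_le_phi (NeZero.pos r')
      have h2 : Real.log r' ≤ L := by
        rw [hL]
        exact Real.log_le_log hr'0 hr'N
      rw [inv_eq_one_div, div_le_div_iff₀ hφ0 hr'0, one_mul]
      refine h1.trans ?_
      rw [mul_comm (3 * L)]
      apply mul_le_mul_of_nonneg_left _ hφ0.le
      linarith
    calc ((r'.totient : ℝ))⁻¹ * ∑ χ : DirichletCharacter ℂ r', ‖cs r' (N / d) (fun n => Gw W Z (d * n)) (d * β) χ‖ ^ 2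
        ≤ 3 * L / r' * (((N : ℝ) / d) ^ 2 / L ^ (A + 4)) := by gcongr
      _ = (N : ℝ) ^ 2 / (r * L ^ (A + 2)) * (1 / d) * (3 / L) := by
          rw [hrr, show A + 4 = (A + 2) + 2 by ring, pow_add L (A + 2) 2]
          field_simp
      _ ≤ (N : ℝ) ^ 2 / (r * L ^ (A + 2)) * (1 / d) * 1 := by
          refine mul_le_mul_of_nonneg_left ?_ (by positivity)
          rw [div_le_one hL0]
          linarith
      _ ≤ _ := by
          rw [mul_one]
          have : 0 ≤ 32 * (N : ℝ) ^ 2 * L ^ 4 / (r * D) := by positivity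
          linarith
  · refine (unit_triv _ _).trans ?_
    have hNd : ((N / d : ℕ) : ℝ) ≤ (N : ℝ) / d := Nat.cast_div_le
    have h1 : ((N / d : ℕ) : ℝ) / r' + 1 ≤ 2 * N / r := by
      have h2 : ((N / d : ℕ) : ℝ) / r' ≤ N / r := by
        calc ((N / d : ℕ) : ℝ) / r' ≤ ((N : ℝ) / d) / r' := by gcongr
          _ = N / r := by rw [hrr, div_div]
      have h3 : 1 ≤ (N : ℝ) / r := by rwa [one_le_div hr0]
      have h4 : 2 * (N : ℝ) / r = N / r + N / r := by ring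
      linarith
    have h2 : ∑ n ∈ Icc 1 (N / d), ‖Gw W Z (d * n)‖ ^ 2 ≤ N / D * (2 * L) ^ 4 := by
      have h3 : ∑ n ∈ Icc 1 (N / d), ‖Gw W Z (d * n)‖ ^ 2 ≤ ∑ n ∈ Icc 1 (N / d), (n.divisors.card : ℝ) ^ 2 := by
        refine sum_le_sum fun n hn => ?_
        rw [Gw_mul hdp, norm_mul, mul_pow]
        calc ‖lc d‖ ^ 2 * ‖Gw W Z n‖ ^ 2 ≤ 1 * ‖Gw W Z n‖ ^ 2 := by
              refine mul_le_mul_of_nonneg_right (pow_le_one₀ (norm_nonneg _) (lc_norm d)) (by positivity)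
          _ = ‖Gw W Z n‖ ^ 2 := one_mul _
          _ ≤ _ := pow_le_pow_left₀ (norm_nonneg _) (Gw_norm (mem_Icc.1 hn).1) 2
      have h4 := Pool.Agent.TH935.LD.tau_pow_sum 2 (N / d)
      refine h3.trans (h4.trans ?_)
      have h5 : Real.log ((N / d : ℕ) : ℝ) ≤ L := by
        rcases Nat.eq_zero_or_pos (N / d) with h0 | h0
        · rw [h0, Nat.cast_zero, Real.log_zero]
          exact hL0.le
        · rw [hL]
          apply Real.log_le_log (by exact_mod_cast h0)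
          exact_mod_cast Nat.div_le_self _ _
      have h6 : 0 ≤ Real.log ((N / d : ℕ) : ℝ) := Real.log_natCast_nonneg _
      have h7 : ((N / d : ℕ) : ℝ) ≤ N / D := hNd.trans (by gcongr)
      have h8 : (2 : ℕ) ^ 2 = 4 := by norm_num
      rw [h8]
      gcongr
      linarith
    calc (((N / d : ℕ) : ℝ) / r' + 1) * ∑ n ∈ Icc 1 (N / d), ‖Gw W Z (d * n)‖ ^ 2 ≤
        (2 * N / r) * (N / D * (2 * L) ^ 4) := by gcongr
      _ = 32 * N ^ 2 * L ^ 4 / (r * D) := by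
          field_simp
          ring
      _ ≤ _ := by
          have : 0 ≤ (N : ℝ) ^ 2 / (r * L ^ (A + 2)) * (1 / d) := by positivity
          linarith

end Pool.Agent.T9h57.LM
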