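import Pool.Agent.T9h57.LM.Core1
import Pool.Agent.R460.GH.NL
import Pool.Agent.Y909.GJ.BilMin

/-!
# The main part in residue classes: minor arcs
-/

set_option autoImplicit false

namespace Pool.Agent.T9h57.LM

open Finset
open Pool.Agent.Y883.GJ
open Pool.Agent.H807R2.Dav (ee)
open Pool.Agent.T9h57.PK (rad)

lemma cs_bil {W Z r y : ℕ} (β : ℝ) (χ : DirichletCharacter ℂ r) :
    cs r y (Gw W Z) β χ = -∑ m ∈ Icc 1 y, ∑ k ∈ Icc 1 (y / m),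
      pa W Z m * lc k * (χ ((m * k : ℕ) : ZMod r) * ee ((m * k : ℕ) * β)) := by
  have h := Pool.Agent.R460.GS.dirV (V := ℂ) y
    (fun m k => pa W Z m * lc k * (χ ((m * k : ℕ) : ZMod r) * ee ((m * k : ℕ) * β)))
  rw [← h, ← sum_neg_distrib]
  unfold cs
  refine sum_congr rfl fun n hn => ?_
  rw [Gw_eq (mem_Icc.1 hn).1, neg_mul, neg_mul, sum_mul, sum_mul]
  congr 1
  refine sum_congr rfl fun d hd => ?_
  beta_reduce
  rw [Nat.mul_div_cancel' (Nat.dvd_of_mem_divisors hd)]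
  ring

lemma cs_bil_sum {W Z r y : ℕ} [NeZero r] (β : ℝ) (S : Finset (DirichletCharacter ℂ r)) :
    ∑ χ ∈ S, ‖cs r y (Gw W Z) β χ‖ ^ 2 =
      ‖∑ m ∈ Icc 1 y, ∑ k ∈ Icc 1 (y / m), (pa W Z m * lc k) • ev S β (m * k)‖ ^ 2 := by
  rw [Pool.Agent.Y183.GJ.norm_ev S β y (fun m k => pa W Z m * lc k)]
  refine sum_congr rfl fun χ _ => ?_
  rw [cs_bil, norm_neg]

/-- the length of the sums over the multiples of `d` -/
lemma fl {N d : ℕ} {L : ℝ} (hN : 1 ≤ N) (hL : L = Real.log N) (hL1 : 100 ≤ L) (hd : 0 < d)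
    (hdN : (d : ℝ) ≤ (N : ℝ) ^ (1 / 4 : ℝ)) :
    (N : ℝ) / d ≤ 2 * ((N / d : ℕ) : ℝ) ∧ 2 * (N : ℝ) ^ (1 / 2 : ℝ) ≤ ((N / d : ℕ) : ℝ) ∧
      L / 2 ≤ Real.log ((N / d : ℕ) : ℝ) ∧ Real.log ((N / d : ℕ) : ℝ) ≤ L := by
  have hN0 : (0 : ℝ) < N := by exact_mod_cast hN
  have hd0 : (0 : ℝ) < d := by exact_mod_cast hd
  have hNr1 : (1 : ℝ) ≤ N := by exact_mod_cast hN
  have h4 : 4 ≤ (N : ℝ) ^ (1 / 4 : ℝ) := by
    have h := Real.add_one_le_exp (L / 4)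
    have e : Real.exp (L / 4) = (N : ℝ) ^ (1 / 4 : ℝ) := by
      rw [Real.rpow_def_of_pos hN0, hL]
      congr 1
      ring
    rw [e] at h
    linarith
  obtain ⟨x, hx⟩ : ∃ x, x = (N : ℝ) ^ (1 / 2 : ℝ) := ⟨_, rfl⟩
  have hx1 : 1 ≤ x := by rw [hx]; exact Real.one_le_rpow hNr1 (by norm_num)
  have h5 : 4 * x ≤ (N : ℝ) / d := by
    rw [le_div_iff₀ hd0]
    calc 4 * x * d ≤ (N : ℝ) ^ (1 / 4 : ℝ) * (N : ℝ) ^ (1 / 2 : ℝ) * (N : ℝ) ^ (1 / 4 : ℝ) := by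
          rw [hx]
          gcongr
      _ = N := by
          rw [← Real.rpow_add hN0, ← Real.rpow_add hN0]
          norm_num
  have h6 : (N : ℝ) / d < ((N / d : ℕ) : ℝ) + 1 := by
    have h7 : N < d * (N / d + 1) := Nat.lt_mul_div_succ N hd
    have h8 : (N : ℝ) < d * (((N / d : ℕ) : ℝ) + 1) := by exact_mod_cast h7
    rw [div_lt_iff₀ hd0]
    linarith
  rw [← hx]
  have h9 : 2 * x ≤ ((N / d : ℕ) : ℝ) := by linarith
  refine ⟨by linarith, h9, ?_, ?_⟩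
  · have h10 : Real.log x = L / 2 := by
      rw [hx, Real.log_rpow hN0, hL]
      ring
    rw [← h10]
    exact Real.log_le_log (by linarith) (by linarith)
  · rw [hL]
    exact Real.log_le_log (by linarith) (by exact_mod_cast Nat.div_le_self _ _)

lemma shrink {N N' d L L' x : ℝ} {C : ℕ} (hd : 0 < d) (hL2 : 2 ≤ L) (hL'0 : 0 < L') (hL' : L' ≤ L)
    (hN' : N / d ≤ 2 * N') (hx0 : 0 ≤ x) (hx : d * x * L ^ (C + 1) ≤ N) : x ≤ N' / L' ^ C := by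
  rw [le_div_iff₀ (by positivity)]
  have h1 : x * L ^ C * L ≤ 2 * N' := by
    have h2 : x * L ^ C * L ≤ N / d := by
      rw [le_div_iff₀ hd]
      calc x * L ^ C * L * d = d * x * L ^ (C + 1) := by ring
        _ ≤ N := hx
    linarith
  have h2 : x * L' ^ C ≤ x * L ^ C := by gcongr
  have h3 : 0 ≤ x * L ^ C := by positivity
  nlinarith

/-- small common divisors, minor arcs -/
theorem minor_small (A : ℕ) : ∃ C N₀ : ℕ, ∀ N : ℕ, N₀ ≤ N → ∀ d r' : ℕ, 0 < d →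
    (d : ℝ) ≤ (N : ℝ) ^ (1 / 4 : ℝ) → ∀ [NeZero r'], ∀ W Z k : ℕ, ∀ h : ℤ, ∀ β : ℝ,
    Real.log N ^ C ≤ W → 1 ≤ W → (Z : ℝ) ≤ (N : ℝ) ^ (1 / 2 : ℝ) →
    ((d * r' : ℕ) : ℝ) * Z * Real.log N ^ (C + 1) ≤ N → Real.log N ^ C ≤ k → 1 ≤ k →
    ((d * r' : ℕ) : ℝ) * k * Real.log N ^ (C + 1) ≤ N →
    IsCoprime h (k : ℤ) → |((d * r' : ℕ) : ℝ) * β - h / k| ≤ 1 / (k : ℝ) ^ 2 →
    ∑ χ : DirichletCharacter ℂ r', ‖cs r' (N / d) (Gw W Z) (d * β) χ‖ ^ 2 ≤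
      ((N : ℝ) / d) ^ 2 / Real.log N ^ A := by
  obtain ⟨K, hK⟩ := Pool.Agent.Y909.GJ.bilMin
  obtain ⟨A', hA'⟩ : ∃ A', A' = A + 1 := ⟨_, rfl⟩
  obtain ⟨N₁, hN₁⟩ := Filter.eventually_atTop.1
    (Pool.Agent.Y614.GJ.Core.ev_log 1 (s := 1 / 2) (by norm_num) (100 + 2 * (288 * |K|) + 2 ^ A'))
  refine ⟨A' + 4, N₁ + 1, fun N hN d r' hd hdN _ W Z k h β hW hW1 hZ hZr hk hk1 hkr hcop hβ => ?_⟩
  obtain ⟨hL1, -⟩ := hN₁ N (by omega)
  have hN1 : 1 ≤ N := by omega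
  have hN0 : (0 : ℝ) < N := by exact_mod_cast hN1
  obtain ⟨L, hL⟩ : ∃ L, L = Real.log (N : ℝ) := ⟨_, rfl⟩
  rw [← hL] at hL1 hW hZr hk hkr ⊢
  have hp0 : (0 : ℝ) < 2 ^ A' := by positivity
  have hK0 : 0 ≤ |K| := abs_nonneg K
  have hL100 : 100 ≤ L := by linarith
  have hL0 : 0 < L := by linarith
  have hLo : 1 ≤ L := by linarith
  have hd0 : (0 : ℝ) < d := by exact_mod_cast hd
  obtain ⟨f1, f2, f3, f4⟩ := fl hN1 hL hL100 hd hdN
  obtain ⟨N', hN'⟩ : ∃ N', N' = N / d := ⟨_, rfl⟩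
  rw [← hN'] at f1 f2 f3 f4 ⊢
  obtain ⟨L', hL'⟩ : ∃ L', L' = Real.log (N' : ℝ) := ⟨_, rfl⟩
  rw [← hL'] at f3 f4
  have hL'0 : 0 < L' := by linarith
  have hZ0 : (0 : ℝ) ≤ Z := Nat.cast_nonneg _
  have hx1 : 0 < (N : ℝ) ^ (1 / 2 : ℝ) := by positivity
  have hN'1 : 1 ≤ N' := by
    have : (0 : ℝ) < N' := by linarith
    exact_mod_cast this
  have hN'0 : (0 : ℝ) < N' := by exact_mod_cast hN'1
  have hr'1 : (1 : ℝ) ≤ r' := by exact_mod_cast NeZero.pos r'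
  rw [cs_bil_sum]
  obtain ⟨X, hX⟩ : ∃ X, X = (N' : ℝ) / L' ^ (A' + 4) := ⟨_, rfl⟩
  have hk0 : (0 : ℝ) < k := by exact_mod_cast hk1
  have hk1r : (1 : ℝ) ≤ k := by exact_mod_cast hk1
  have hshr : ∀ x : ℝ, 0 ≤ x → d * x * L ^ (A' + 4 + 1) ≤ N → x ≤ X := by
    intro x hx0 hx
    rw [hX]
    exact shrink hd0 (by linarith) hL'0 f4 f1 hx0 hx
  have g1 : (r' : ℝ) * Z ≤ X := by
    apply hshr _ (by positivity)
    push_cast at hZr
    linarith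
  have g2 : (r' : ℝ) * k ≤ X := by
    apply hshr _ (by positivity)
    push_cast at hkr
    linarith
  have hXN : X ≤ N' := by
    rw [hX]
    apply div_le_self hN'0.le
    exact one_le_pow₀ (by linarith)
  have hkN : k ≤ N' := by
    have : (k : ℝ) ≤ N' := by nlinarith
    exact_mod_cast this
  have hZN : Z ≤ N' := by
    have : (Z : ℝ) ≤ N' := by linarith
    exact_mod_cast this
  have hLC : L' ^ (A' + 4) ≤ L ^ (A' + 4) := by gcongr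
  have g3 : (N' : ℝ) / k ≤ X := by
    rw [hX]
    apply div_le_div_of_nonneg_left hN'0.le (by positivity)
    exact hLC.trans hk
  have g4 : (N' : ℝ) / W ≤ X := by
    rw [hX]
    apply div_le_div_of_nonneg_left hN'0.le (by positivity)
    exact hLC.trans hW
  have hfin := Pool.Agent.R460.GH.bil_min2 hK (q := r') (N := N') (y := N') (r := k) (C := A' + 4) (A' := A')
    (W := W) (Z := Z) (h := h) (β := d * β) (L := L') (X := X) (a := pa W Z) (b := lc) hL' hN'1 le_rfl hW1 hZN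
    (fun m hm => (pa_supp hm).2) (fun m => pa_norm W Z m) (fun m _ => (lc_norm m).trans (by norm_num)) hk1 hkN hcop
    (by
      have : (r' : ℝ) * (d * β) = ((d * r' : ℕ) : ℝ) * β := by push_cast; ring
      rw [this]
      exact hβ) hX (by linarith) (by linarith) rfl g1 g2 g3 g4
  refine hfin.trans ?_
  have hNN : (N' : ℝ) ≤ N / d := by rw [hN']; exact Nat.cast_div_le
  calc (N' : ℝ) ^ 2 / L' ^ A' ≤ ((N : ℝ) / d) ^ 2 / (L / 2) ^ A' := by gcongr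
    _ = ((N : ℝ) / d) ^ 2 / L ^ A * (2 ^ A' / L) := by
        rw [hA', div_pow L 2 (A + 1), pow_succ L A]
        field_simp
    _ ≤ ((N : ℝ) / d) ^ 2 / L ^ A * 1 := by
        refine mul_le_mul_of_nonneg_left ?_ (by positivity)
        rw [div_le_one hL0]
        linarith
    _ = _ := mul_one _

end Pool.Agent.T9h57.LM
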