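import Pool.Agent.T9h57.LM.Psi3
import Pool.Agent.T9h57.GL.B3
import Pool.Agent.H373R2.T7.LamMaj

/-!
# Prime sums over all nonprincipal characters to moduli with small radical
-/

set_option autoImplicit false

namespace Pool.Agent.T9h57.LM

open Finset Filter Topology
open Pool.Agent.R460.GS
open Pool.Agent.Y883.GJ
open Pool.Agent.T9h57.PK (rad rad_pos cond_sq cL)
open Pool.Agent.T9h57.GL (nc_LA)

lemma coprime_rad {q n : ℕ} (hq : q ≠ 0) : n.Coprime (rad q) ↔ n.Coprime q := by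
  constructor
  · intro h
    rw [Nat.coprime_iff_gcd_eq_one] at h ⊢
    by_contra hc
    obtain ⟨p, hp, hpd⟩ := Nat.exists_prime_and_dvd hc
    have h1 : p ∣ n := hpd.trans (Nat.gcd_dvd_left _ _)
    have h2 : p ∣ q := hpd.trans (Nat.gcd_dvd_right _ _)
    have h3 : p ∣ rad q := by
      unfold Pool.Agent.T9h57.PK.rad
      exact dvd_prod_of_mem _ (Nat.mem_primeFactors.2 ⟨hp, h2, hq⟩)
    have h4 : p ∣ Nat.gcd n (rad q) := Nat.dvd_gcd h1 h3
    rw [h] at h4
    exact hp.one_lt.ne' (Nat.dvd_one.1 h4)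
  · intro h
    refine Nat.Coprime.coprime_dvd_right ?_ h
    unfold Pool.Agent.T9h57.PK.rad
    exact Nat.prod_primeFactors_dvd q

open Classical in
/-- characters of a small conductor -/
theorem sm_cond (U T : ℕ) : ∃ M₀ : ℕ, ∀ M : ℕ, M₀ ≤ M → ∀ (q : ℕ) [NeZero q] (χ : DirichletCharacter ℂ q), χ ≠ 1 →
    (χ.conductor : ℝ) ≤ Real.log M ^ T → (rad q : ℝ) ≤ Real.log M ^ T → (rad q : ℝ) ≤ M →
    ‖∑ n ∈ Icc 1 M, LA n * χ (n : ZMod q)‖ ≤ M / Real.log M ^ U := by
  obtain ⟨M₁, h1⟩ := nc_LA (U + 1)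
  obtain ⟨M₂, h2⟩ := Pool.Agent.H373R2.T7.lam_ap T (U + T + 1)
  obtain ⟨M₃, h3⟩ := Filter.eventually_atTop.1 (Pool.Agent.Y614.GJ.Core.ev_log 1 (s := 1) (by norm_num) 4)
  refine ⟨M₁ + M₂ + M₃ + 1, fun M hM q _ χ hχ hcond hrad hradM => ?_⟩
  obtain ⟨hL4, -⟩ := h3 M (by omega)
  have hM1 : 1 ≤ M := by omega
  have hnc := h1 M (by omega) (rad q) (rad_pos q) (by exact_mod_cast hradM)
  have hnc' : ∑ n ∈ (Icc 1 M).filter (fun n => ¬ n.Coprime q), ‖LA n‖ ≤ M / Real.log M ^ (U + 1) := by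
    refine le_trans (le_of_eq ?_) hnc
    congr 1
    refine filter_congr fun n _ => ?_
    rw [coprime_rad (NeZero.ne q)]
  have hsp := char_split le_rfl LA χ _ hnc'
  refine hsp.trans ?_
  obtain ⟨f, hf⟩ : ∃ f, f = χ.conductor := ⟨_, rfl⟩
  haveI : NeZero χ.conductor := ⟨fun h => (NeZero.ne q) (by
    have := χ.conductor_dvd_level
    rw [h, zero_dvd_iff] at this
    exact this)⟩
  have hψ1 : χ.primitiveCharacter ≠ 1 := by
    intro h
    apply hχ
    rw [← χ.changeLevel_primitiveCharacter, h]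
    simp
  obtain ⟨ψ, hψ⟩ : ∃ ψ, ψ = χ.primitiveCharacter := ⟨_, rfl⟩
  rw [← hψ] at hψ1 ⊢
  have hf0 : 0 < χ.conductor := NeZero.pos _
  have hap := h2 M (by omega) χ.conductor hf0 hcond
  obtain ⟨L, hL⟩ : ∃ L, L = Real.log (M : ℝ) := ⟨_, rfl⟩
  rw [← hL] at hL4 hcond hap ⊢
  have hL0 : 0 < L := by linarith
  -- classes
  have hcl : ∑ n ∈ Icc 1 M, LA n * ψ (n : ZMod χ.conductor) =
      ∑ c ∈ range χ.conductor, ψ (c : ZMod χ.conductor) *
        ((∑ n ∈ (Icc 1 M).filter (fun n => n ≡ c [MOD χ.conductor]), ArithmeticFunction.vonMangoldt n : ℝ) : ℂ) := by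
    rw [← sum_fiberwise_of_maps_to (s := Icc 1 M) (t := range χ.conductor) (g := fun n => n % χ.conductor)
      (fun n _ => mem_range.2 (Nat.mod_lt _ hf0))]
    refine sum_congr rfl fun c hc => ?_
    rw [Complex.ofReal_sum, mul_sum]
    have hset : (Icc 1 M).filter (fun n => n % χ.conductor = c) =
        (Icc 1 M).filter (fun n => n ≡ c [MOD χ.conductor]) := by
      refine filter_congr fun n _ => ?_
      unfold Nat.ModEq
      rw [Nat.mod_eq_of_lt (mem_range.1 hc)]
    rw [hset]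
    refine sum_congr rfl fun n hn => ?_
    have hn2 := (mem_filter.1 hn).2
    have : (n : ZMod χ.conductor) = (c : ZMod χ.conductor) := (ZMod.natCast_eq_natCast_iff _ _ _).2 hn2
    rw [this]
    unfold LA
    ring
  have hmain : ∑ c ∈ range χ.conductor, ψ (c : ZMod χ.conductor) *
      (((if c.Coprime χ.conductor then (M : ℝ) / (Nat.totient χ.conductor : ℝ) else 0) : ℝ) : ℂ) = 0 := by
    have e1 : ∀ c ∈ range χ.conductor, ψ (c : ZMod χ.conductor) *
      (((if c.Coprime χ.conductor then (M : ℝ) / (Nat.totient χ.conductor : ℝ) else 0) : ℝ) : ℂ) =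
      ψ (c : ZMod χ.conductor) * (((M : ℝ) / (Nat.totient χ.conductor : ℝ) : ℝ) : ℂ) := by
      intro c _
      split_ifs with h
      · rfl
      · have h0 : ψ (c : ZMod χ.conductor) = 0 := by
          apply MulChar.map_nonunit
          rw [ZMod.isUnit_iff_coprime]
          exact h
        rw [h0, zero_mul, zero_mul]
    rw [sum_congr rfl e1, ← sum_mul]
    have e2 : ∑ c ∈ range χ.conductor, ψ (c : ZMod χ.conductor) = ∑ a : ZMod χ.conductor, ψ a := by
      symm
      refine Finset.sum_nbij' (fun l => l.val) (fun n => (n : ZMod χ.conductor)) ?_ ?_ ?_ ?_ ?_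
      · intro l _; exact mem_range.2 (ZMod.val_lt l)
      · intro n _; exact mem_univ _
      · intro l _; exact ZMod.natCast_zmod_val l
      · intro n hn; exact ZMod.val_cast_of_lt (mem_range.1 hn)
      · intro l _; rw [ZMod.natCast_zmod_val]
    rw [e2, MulChar.sum_eq_zero_of_ne_one hψ1, zero_mul]
  have hdiff : ∑ n ∈ Icc 1 M, LA n * ψ (n : ZMod χ.conductor) =
      ∑ c ∈ range χ.conductor, ψ (c : ZMod χ.conductor) *
        (((∑ n ∈ (Icc 1 M).filter (fun n => n ≡ c [MOD χ.conductor]), ArithmeticFunction.vonMangoldt n) -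
        (if c.Coprime χ.conductor then (M : ℝ) / (Nat.totient χ.conductor : ℝ) else 0) : ℝ) : ℂ) := by
    rw [hcl, ← sub_zero (∑ c ∈ range χ.conductor, _), ← hmain, ← sum_sub_distrib]
    refine sum_congr rfl fun c _ => ?_
    push_cast
    ring
  have hb : ‖∑ n ∈ Icc 1 M, LA n * ψ (n : ZMod χ.conductor)‖ ≤ L ^ T * (M / L ^ (U + T + 1)) := by
    rw [hdiff]
    refine (norm_sum_le _ _).trans ?_
    calc ∑ c ∈ range χ.conductor, ‖ψ (c : ZMod χ.conductor) *
        (((∑ n ∈ (Icc 1 M).filter (fun n => n ≡ c [MOD χ.conductor]), ArithmeticFunction.vonMangoldt n) -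
        (if c.Coprime χ.conductor then (M : ℝ) / (Nat.totient χ.conductor : ℝ) else 0) : ℝ) : ℂ)‖ ≤
        ∑ c ∈ range χ.conductor, M / L ^ (U + T + 1) := by
          refine sum_le_sum fun c _ => ?_
          rw [norm_mul, Complex.norm_real, Real.norm_eq_abs]
          calc ‖ψ (c : ZMod χ.conductor)‖ * _ ≤ 1 * (M / L ^ (U + T + 1)) := by
                apply mul_le_mul (ψ.norm_le_one _) (hap c M le_rfl) (abs_nonneg _) (by norm_num)
            _ = _ := one_mul _
      _ = χ.conductor * (M / L ^ (U + T + 1)) := by rw [sum_const, card_range, nsmul_eq_mul]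
      _ ≤ _ := by gcongr
  have e3 : L ^ T * (M / L ^ (U + T + 1)) = M / L ^ U * (1 / L) := by
    rw [pow_succ, pow_add]
    field_simp
  have e4 : (M : ℝ) / L ^ (U + 1) = M / L ^ U * (1 / L) := by
    rw [pow_succ]
    field_simp
  rw [e3] at hb
  rw [e4]
  have h0 : 0 ≤ (M : ℝ) / L ^ U := by positivity
  have h5 : 1 / L ≤ 1 / 4 := one_div_le_one_div_of_le (by norm_num) hL4
  nlinarith

end Pool.Agent.T9h57.LM
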