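import Pool.Agent.T9h57.LM.Prm
import Pool.Agent.Y183.GJ.Bil1

/-!
# Prime sums over all nonprincipal characters to moduli with small radical, second part
-/

set_option autoImplicit false

namespace Pool.Agent.T9h57.LM

open Finset Filter Topology
open Pool.Agent.R460.GS
open Pool.Agent.Y883.GJ
open Pool.Agent.T9h57.PK (rad rad_pos cond_sq cL ev_log)

/-- prime sums over all nonprincipal characters -/
theorem prime_sums {κ : ℝ} (hκ : 0 < κ) (hκ1 : κ ≤ 1) (T U : ℕ) : ∃ N₀ : ℕ, ∀ N : ℕ, N₀ ≤ N →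
    ∀ (q : ℕ) [NeZero q], q ≤ N → (rad q : ℝ) ≤ Real.log N ^ T → ∀ χ : DirichletCharacter ℂ q, χ ≠ 1 →
    ∀ M : ℕ, (N : ℝ) ^ κ ≤ M → M ≤ N → ‖∑ n ∈ Icc 1 M, LA n * χ (n : ZMod q)‖ ≤ M / Real.log N ^ U := by
  obtain ⟨m, hm, h⟩ := mainK hκ hκ1
  obtain ⟨y1, hy1, hmain⟩ := h (2 * m * U)
  obtain ⟨M₀, hsm⟩ := sm_cond (U + 1) (T + 1)
  obtain ⟨a, ha⟩ := eventually_atTop.1 (ev_log ((T : ℕ) ^ 2 : ℝ) 2)
  obtain ⟨b, hb⟩ : ∃ b : ℝ, b = max (4 / κ ^ (T + 1)) (1 / κ ^ (U + 1)) := ⟨_, rfl⟩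
  obtain ⟨N₀, hN₀⟩ : ∃ N₀ : ℕ, ∀ N : ℕ, N₀ ≤ N → max (max (y1 ^ (2 * m)) a) (max 4 (max b (M₀ / κ))) ≤ Real.log N := by
    have h1 := (Real.tendsto_log_atTop.comp tendsto_natCast_atTop_atTop).eventually_ge_atTop
      (max (max (y1 ^ (2 * m)) a) (max 4 (max b (M₀ / κ))))
    exact eventually_atTop.1 h1
  obtain ⟨N₁, hN₁⟩ := eventually_atTop.1 (Pool.Agent.Y614.GJ.Core.ev_log T (s := κ) hκ 1)
  refine ⟨N₀ + N₁ + 1, fun N hN q _ hqN hrad χ hχ M hM1 hM2 => ?_⟩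
  have hLb := hN₀ N (by omega)
  obtain ⟨-, hLT⟩ := hN₁ N (by omega)
  have hN1 : 1 ≤ N := by omega
  have hN0 : (0 : ℝ) < N := by exact_mod_cast hN1
  obtain ⟨L, hL⟩ : ∃ L, L = Real.log (N : ℝ) := ⟨_, rfl⟩
  rw [← hL] at hLb hrad hLT ⊢
  have hL1 : y1 ^ (2 * m) ≤ L := (le_max_left _ _).trans ((le_max_left _ _).trans hLb)
  have hLa : a ≤ L := (le_max_right _ _).trans ((le_max_left _ _).trans hLb)
  have hL4 : 4 ≤ L := (le_max_left _ _).trans ((le_max_right _ _).trans hLb)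
  have hLB : b ≤ L := (le_max_left _ _).trans ((le_max_right _ _).trans ((le_max_right _ _).trans hLb))
  have hLM : (M₀ : ℝ) / κ ≤ L := (le_max_right _ _).trans ((le_max_right _ _).trans ((le_max_right _ _).trans hLb))
  have hL0 : 0 < L := by linarith
  have hLo : 1 ≤ L := by linarith
  have hb1 : 4 ≤ κ ^ (T + 1) * L := by
    have h1 : 4 / κ ^ (T + 1) ≤ L := (le_max_left _ _).trans (hb ▸ hLB)
    rw [div_le_iff₀ (by positivity)] at h1
    linarith
  have hb2 : 1 ≤ κ ^ (U + 1) * L := by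
    have h1 : 1 / κ ^ (U + 1) ≤ L := (le_max_right _ _).trans (hb ▸ hLB)
    rw [div_le_iff₀ (by positivity)] at h1
    linarith
  have hM0 : (0 : ℝ) < M := lt_of_lt_of_le (by positivity) hM1
  have hM1' : 1 ≤ M := by exact_mod_cast hM0
  have hMr : (1 : ℝ) ≤ M := by exact_mod_cast hM1'
  have hlM : κ * L ≤ Real.log M := by
    have h1 := Real.log_le_log (by positivity) hM1
    rwa [Real.log_rpow hN0, ← hL] at h1
  have hlM0 : 0 < Real.log M := lt_of_lt_of_le (by positivity) hlM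
  have hlM2 : Real.log M ≤ L := by
    rw [hL]
    exact Real.log_le_log hM0 (by exact_mod_cast hM2)
  by_cases hχ2 : χ ^ 2 = 1
  · have h3 : (χ.conductor : ℝ) ≤ 4 * (rad q : ℝ) := by exact_mod_cast cond_sq χ hχ2
    have h5 : 4 * L ^ T ≤ Real.log M ^ (T + 1) := by
      calc 4 * L ^ T ≤ (κ ^ (T + 1) * L) * L ^ T := by gcongr
        _ = (κ * L) ^ (T + 1) := by ring
        _ ≤ _ := by gcongr
    have h6 : 0 ≤ L ^ T := by positivity
    have h7 := hsm M (by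
      have h8 : (M₀ : ℝ) ≤ M := by
        rw [div_le_iff₀ hκ] at hLM
        have h9 := Real.add_one_le_exp (Real.log M)
        rw [Real.exp_log hM0] at h9
        linarith
      exact_mod_cast h8) q χ hχ (by linarith) (by linarith) (by linarith)
    refine h7.trans ?_
    rw [div_le_div_iff₀ (by positivity) (by positivity)]
    have h8 : L ^ U ≤ Real.log M ^ (U + 1) := by
      calc L ^ U = 1 * L ^ U := (one_mul _).symm
        _ ≤ (κ ^ (U + 1) * L) * L ^ U := by gcongr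
        _ = (κ * L) ^ (U + 1) := by ring
        _ ≤ _ := by gcongr
    gcongr
  -- the parameter
  obtain ⟨Y, hY⟩ : ∃ Y : ℝ, Y = L ^ (1 / (2 * m : ℕ) : ℝ) := ⟨_, rfl⟩
  have hm0 : (0 : ℝ) < ((2 * m : ℕ) : ℝ) := by
    have : 0 < 2 * m := by omega
    exact_mod_cast this
  have hY2m : Y ^ (2 * m) = L := by
    rw [hY, ← Real.rpow_natCast, ← Real.rpow_mul hL0.le, one_div, inv_mul_cancel₀ hm0.ne', Real.rpow_one]
  have hY0 : 0 < Y := by rw [hY]; positivity
  have hY1 : y1 ≤ Y := by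
    have h1 : y1 ^ (2 * m) ≤ Y ^ (2 * m) := by rw [hY2m]; exact hL1
    exact (pow_le_pow_iff_left₀ (by linarith) hY0.le (by omega)).1 h1
  have hYm : (T : ℕ) * Real.log L ≤ Y ^ m := by
    have h1 := ha L hLa
    have h2 : (((T : ℕ) : ℝ) * Real.log L) ^ 2 ≤ (Y ^ m) ^ 2 := by
      rw [← pow_mul, mul_comm m 2, hY2m, mul_pow]
      exact h1
    have h3 : 0 ≤ Real.log L := Real.log_nonneg hLo
    exact (pow_le_pow_iff_left₀ (by positivity) (by positivity) two_ne_zero).1 h2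
  have hk := hmain Y hY1 q (by
    rw [hY2m, hL]
    apply Real.log_le_log (by exact_mod_cast NeZero.pos q)
    exact_mod_cast hqN) (by
    refine (Real.log_le_log (by exact_mod_cast rad_pos _) hrad).trans ?_
    rw [Real.log_pow]
    exact hYm) χ hχ2 M hMr (by
    rw [hY2m]
    have : κ / 4 * L ≤ κ * L := by
      gcongr
      linarith
    linarith) (by rw [hY2m]; exact hlM2)
  rw [Nat.floor_natCast] at hk
  have e2 : Y ^ (2 * m * U) = L ^ U := by rw [pow_mul, hY2m]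
  rw [e2] at hk
  refine le_trans (le_of_eq ?_) hk
  rfl

open Classical in
/-- the primes in `(W, Z]` -/
noncomputable def pa (W Z m : ℕ) : ℂ := if m.Prime ∧ W < m ∧ m ≤ Z then 1 else 0

lemma pp_le {u v : ℕ} (hv : 1 ≤ v) : ∑ n ∈ Ioc u v, (ArithmeticFunction.vonMangoldt n -
    if n.Prime then Real.log n else 0) ≤ 2 * √(v : ℝ) * Real.log v := by
  have h0 : ∀ n : ℕ, 0 ≤ ArithmeticFunction.vonMangoldt n - if n.Prime then Real.log n else 0 := by
    intro n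
    split_ifs with h
    · rw [ArithmeticFunction.vonMangoldt_apply_prime h, sub_self]
    · rw [sub_zero]
      exact ArithmeticFunction.vonMangoldt_nonneg
  have h1 := Chebyshev.psi_sub_theta_le (x := (v : ℝ)) (by exact_mod_cast hv)
  unfold Chebyshev.psi Chebyshev.theta at h1
  rw [Nat.floor_natCast, sum_filter, ← sum_sub_distrib] at h1
  refine le_trans ?_ h1
  refine sum_le_sum_of_subset_of_nonneg (Ioc_subset_Ioc_left (Nat.zero_le _)) fun n _ _ => h0 n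

lemma ci_eq {δ : ℝ} (hδ : 0 < δ) {m i : ℕ} (hm : 1 ≤ m) :
    Pool.Agent.Y183.GJ.ci δ m = i ↔ Pool.Agent.Y183.GJ.gi δ i ≤ m ∧ (m : ℝ) < Pool.Agent.Y183.GJ.gi δ (i + 1) := by
  have hm0 : (0 : ℝ) < m := by exact_mod_cast hm
  constructor
  · intro h
    rw [← h]
    exact ⟨Pool.Agent.Y183.GJ.gi_le hδ hm, Pool.Agent.Y183.GJ.lt_gi hδ hm⟩
  · rintro ⟨h1, h2⟩
    unfold Pool.Agent.Y183.GJ.gi at h1 h2
    rw [← Real.le_log_iff_exp_le hm0] at h1
    rw [← Real.log_lt_iff_lt_exp hm0] at h2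
    unfold Pool.Agent.Y183.GJ.ci
    rw [Nat.floor_eq_iff (div_nonneg (Real.log_natCast_nonneg m) hδ.le)]
    rw [le_div_iff₀ hδ, div_lt_iff₀ hδ]
    refine ⟨h1, ?_⟩
    push_cast at h2
    exact h2

open Classical in
open Pool.Agent.Y183.GJ (ci gi Xi ai gi_pos gi_succ) in
/-- the sums over short classes -/
theorem cells {κ : ℝ} (hκ : 0 < κ) (hκ1 : κ ≤ 1) (T K K' : ℕ) (hK : K + 2 ≤ 2 * K') : ∃ N₀ : ℕ, ∀ N : ℕ, N₀ ≤ N →
    ∀ (q : ℕ) [NeZero q], q ≤ N → (rad q : ℝ) ≤ Real.log N ^ T → ∀ χ : DirichletCharacter ℂ q, χ ≠ 1 →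
    ∀ W Z : ℕ, (N : ℝ) ^ κ ≤ W → Z ≤ N → ∀ i : ℕ,
      ‖∑ m ∈ Icc 1 (Xi ((Real.log N ^ K')⁻¹) i), ai ((Real.log N ^ K')⁻¹) (pa W Z) i m * χ (m : ZMod q)‖ ≤
        gi ((Real.log N ^ K')⁻¹) i * (Real.log N ^ K)⁻¹ := by
  obtain ⟨N₁, h1⟩ := prime_sums hκ hκ1 T (K + 1)
  obtain ⟨N₂, h2⟩ := eventually_atTop.1 (Pool.Agent.Y614.GJ.Core.ev_log (2 * K + 4) (s := κ) hκ 1000)
  refine ⟨N₁ + N₂ + 1, fun N hN q _ hqN hrad χ hχ W Z hW hZ i => ?_⟩
  have hps := h1 N (by omega) q hqN hrad χ hχ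
  obtain ⟨hL1, hLp⟩ := h2 N (by omega)
  have hN0 : (0 : ℝ) < N := by exact_mod_cast (by omega : 0 < N)
  obtain ⟨L, hL⟩ : ∃ L, L = Real.log (N : ℝ) := ⟨_, rfl⟩
  rw [← hL] at hps hL1 hLp ⊢
  have hL0 : 0 < L := by linarith
  have hLo : 1 ≤ L := by linarith
  obtain ⟨δ, hδ⟩ : ∃ δ, δ = (L ^ K')⁻¹ := ⟨_, rfl⟩
  rw [← hδ]
  have hδ0 : 0 < δ := by rw [hδ]; positivity
  have hδ1 : δ ≤ 1 := by
    rw [hδ]
    exact inv_le_one_of_one_le₀ (one_le_pow₀ hLo)
  have hδ2 : δ * δ * L ^ (K + 2) ≤ 1 := by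
    calc δ * δ * L ^ (K + 2) ≤ δ * δ * L ^ (2 * K') := by
          gcongr
      _ = 1 := by
          rw [hδ, two_mul, pow_add]
          field_simp
  obtain ⟨g, hg⟩ : ∃ g, g = gi δ i := ⟨_, rfl⟩
  have hg0 : 0 < g := by rw [hg]; exact gi_pos _ _
  obtain ⟨g', hg'⟩ : ∃ g', g' = gi δ (i + 1) := ⟨_, rfl⟩
  have hgg : g' = g * Real.exp δ := by rw [hg, hg', gi_succ]
  have hg'0 : 0 < g' := by rw [hgg]; positivity
  have hexp : Real.exp δ ≤ 1 + 2 * δ := by
    have := Real.exp_bound' hδ0.le hδ1 (n := 2) (by norm_num)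
    norm_num [sum_range_succ, Nat.factorial] at this
    nlinarith
  obtain ⟨u, hu⟩ : ∃ u, u = max W (⌈g⌉₊ - 1) := ⟨_, rfl⟩
  obtain ⟨v, hv⟩ : ∃ v, v = min Z (⌈g'⌉₊ - 1) := ⟨_, rfl⟩
  have hcg : 1 ≤ ⌈g⌉₊ := Nat.ceil_pos.2 hg0
  have hcg' : 1 ≤ ⌈g'⌉₊ := Nat.ceil_pos.2 hg'0
  -- the class is a set of consecutive primes
  have hset : (Icc 1 (Xi δ i)).filter (fun m => ci δ m = i ∧ m.Prime ∧ W < m ∧ m ≤ Z) =
      (Ioc u v).filter Nat.Prime := by
    ext m
    rw [mem_filter, mem_filter, mem_Icc, mem_Ioc, hu, hv, max_lt_iff, le_min_iff]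
    constructor
    · rintro ⟨⟨hm1, hm2⟩, hc, hp, hw, hz⟩
      rw [ci_eq hδ0 hm1, ← hg, ← hg'] at hc
      have a1 : ⌈g⌉₊ ≤ m := Nat.ceil_le.2 hc.1
      have a2 : m < ⌈g'⌉₊ := Nat.lt_ceil.2 hc.2
      exact ⟨⟨⟨hw, by omega⟩, hz, by omega⟩, hp⟩
    · rintro ⟨⟨⟨hw, h3⟩, hz, h4⟩, hp⟩
      have hm1 : 1 ≤ m := hp.one_lt.le
      have a1 : g ≤ m := Nat.ceil_le.1 (by omega)
      have a2 : (m : ℝ) < g' := Nat.lt_ceil.1 (by omega)
      refine ⟨⟨hm1, ?_⟩, ?_, hp, hw, hz⟩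
      · unfold Xi
        rw [← hg']
        exact Nat.le_floor a2.le
      · rw [ci_eq hδ0 hm1, ← hg, ← hg']
        exact ⟨a1, a2⟩
  have hsum : ∑ m ∈ Icc 1 (Xi δ i), ai δ (pa W Z) i m * χ (m : ZMod q) =
      ∑ m ∈ Ioc u v, (if m.Prime then χ (m : ZMod q) else 0) := by
    rw [← sum_filter, ← hset, sum_filter]
    refine sum_congr rfl fun m _ => ?_
    unfold ai pa
    by_cases hc : ci δ m = i
    · by_cases hp : m.Prime ∧ W < m ∧ m ≤ Z
      · rw [if_pos hc, if_pos hp, if_pos ⟨hc, hp⟩, one_mul]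
      · rw [if_pos hc, if_neg hp, if_neg (fun h => hp h.2), zero_mul]
    · rw [if_neg hc, if_neg (fun h => hc h.1), zero_mul]
  rw [hsum, ← hg]
  rcases le_or_gt v u with huv | huv
  · rw [Ioc_eq_empty (by omega), sum_empty, norm_zero]
    positivity
  have hWu : W ≤ u := by rw [hu]; exact le_max_left _ _
  have hvN : v ≤ N := by rw [hv]; exact (min_le_left _ _).trans hZ
  have hv1 : 1 ≤ v := by omega
  have hvg : (v : ℝ) ≤ g' := by
    have a1 : v ≤ ⌈g'⌉₊ - 1 := by rw [hv]; exact min_le_right _ _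
    exact (Nat.lt_ceil.1 (by omega : v < ⌈g'⌉₊)).le
  have hug : g ≤ (u : ℝ) + 1 := by
    have a1 : ⌈g⌉₊ ≤ u + 1 := by
      have : ⌈g⌉₊ - 1 ≤ u := by rw [hu]; exact le_max_right _ _
      omega
    have a2 : (⌈g⌉₊ : ℝ) ≤ u + 1 := by exact_mod_cast a1
    exact (Nat.le_ceil g).trans a2
  have hκu : (N : ℝ) ^ κ ≤ u := hW.trans (by exact_mod_cast hWu)
  have huvr : (u : ℝ) ≤ v := by exact_mod_cast huv.le
  have hg3 : g' ≤ 3 * g := by
    rw [hgg]
    nlinarith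
  have hgbig : L ^ (2 * K + 4) ≤ 3 * g := by linarith
  have hgN : 1000 ≤ g := by
    have a1 : L ^ 4 ≤ L ^ (2 * K + 4) := pow_le_pow_right₀ hLo (by omega)
    have a2 : 3000 ≤ L ^ 4 := by
      calc (3000 : ℝ) ≤ 1000 ^ 4 := by norm_num
        _ ≤ L ^ 4 := by gcongr
    linarith
  have hlg : 1 ≤ Real.log g := by
    rw [Real.le_log_iff_exp_le hg0]
    have := Real.exp_one_lt_d9
    linarith
  -- the three sums
  obtain ⟨S, hS⟩ : ∃ S : ℂ, S = ∑ m ∈ Ioc u v, (if m.Prime then χ (m : ZMod q) else 0) := ⟨_, rfl⟩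
  obtain ⟨S1, hS1⟩ : ∃ S1 : ℂ, S1 = ∑ m ∈ Ioc u v, ((if m.Prime then Real.log m else 0 : ℝ) : ℂ) * χ (m : ZMod q) := ⟨_, rfl⟩
  obtain ⟨S2, hS2⟩ : ∃ S2 : ℂ, S2 = ∑ m ∈ Ioc u v, LA m * χ (m : ZMod q) := ⟨_, rfl⟩
  rw [← hS]
  have b1 : ‖S2‖ ≤ 6 * g / L ^ (K + 1) := by
    have a1 : S2 = ∑ m ∈ Icc 1 v, LA m * χ (m : ZMod q) - ∑ m ∈ Icc 1 u, LA m * χ (m : ZMod q) := by
      rw [hS2, eq_sub_iff_add_eq, add_comm]
      have a2 : Icc 1 v = Icc 1 u ∪ Ioc u v := by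
        ext m
        rw [mem_union, mem_Icc, mem_Icc, mem_Ioc]
        omega
      have a3 : Disjoint (Icc 1 u) (Ioc u v) := by
        rw [disjoint_left]
        intro m h3 h4
        rw [mem_Icc] at h3
        rw [mem_Ioc] at h4
        omega
      rw [a2, sum_union a3]
    rw [a1]
    refine (norm_sub_le _ _).trans ?_
    have a4 := hps v (hκu.trans huvr) hvN
    have a5 := hps u hκu (by omega)
    calc _ ≤ (v : ℝ) / L ^ (K + 1) + (u : ℝ) / L ^ (K + 1) := add_le_add a4 a5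
      _ ≤ (3 * g) / L ^ (K + 1) + (3 * g) / L ^ (K + 1) := by
          gcongr
          · linarith
          · linarith
      _ = _ := by ring
  have b2 : ‖S2 - S1‖ ≤ 2 * √(v : ℝ) * Real.log v := by
    refine le_trans ?_ (pp_le (u := u) hv1)
    rw [hS2, hS1, ← sum_sub_distrib]
    refine (norm_sum_le _ _).trans (sum_le_sum fun m _ => ?_)
    have a1 : LA m * χ (m : ZMod q) - ((if m.Prime then Real.log m else 0 : ℝ) : ℂ) * χ (m : ZMod q) =
        ((ArithmeticFunction.vonMangoldt m - (if m.Prime then Real.log m else 0) : ℝ) : ℂ) * χ (m : ZMod q) := by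
      unfold LA
      push_cast
      ring
    rw [a1, norm_mul, Complex.norm_real, Real.norm_eq_abs]
    have a2 : 0 ≤ ArithmeticFunction.vonMangoldt m - if m.Prime then Real.log m else 0 := by
      split_ifs with h
      · rw [ArithmeticFunction.vonMangoldt_apply_prime h, sub_self]
      · rw [sub_zero]
        exact ArithmeticFunction.vonMangoldt_nonneg
    rw [abs_of_nonneg a2]
    exact mul_le_of_le_one_right a2 (χ.norm_le_one _)
  have hcard : (v : ℝ) - u ≤ 2 * δ * g + 1 := by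
    have : g' ≤ g * (1 + 2 * δ) := by rw [hgg]; gcongr
    linarith
  have b3 : ‖S1 - (Real.log g : ℂ) * S‖ ≤ δ * (2 * δ * g + 1) := by
    rw [hS1, hS, mul_sum, ← sum_sub_distrib]
    refine (norm_sum_le _ _).trans ?_
    calc _ ≤ ∑ m ∈ Ioc u v, δ := by
          refine sum_le_sum fun m hm => ?_
          by_cases hp : m.Prime
          · have hmem : m ∈ (Ioc u v).filter Nat.Prime := mem_filter.2 ⟨hm, hp⟩
            rw [← hset, mem_filter, mem_Icc] at hmem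
            have hm0 : (0 : ℝ) < m := by exact_mod_cast hmem.1.1
            have hc := (ci_eq hδ0 hmem.1.1).1 hmem.2.1
            rw [← hg, ← hg'] at hc
            have a1 : Real.log g ≤ Real.log m := Real.log_le_log hg0 hc.1
            have a2 : Real.log m ≤ Real.log g + δ := by
              have a3 := Real.log_le_log hm0 hc.2.le
              rw [hgg, Real.log_mul hg0.ne' (Real.exp_pos _).ne', Real.log_exp] at a3
              exact a3
            rw [if_pos hp, if_pos hp]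
            have a3 : ((Real.log m : ℝ) : ℂ) * χ (m : ZMod q) - (Real.log g : ℂ) * χ (m : ZMod q) =
                ((Real.log m - Real.log g : ℝ) : ℂ) * χ (m : ZMod q) := by
              push_cast
              ring
            rw [a3, norm_mul, Complex.norm_real, Real.norm_eq_abs, abs_of_nonneg (by linarith)]
            calc _ ≤ (Real.log m - Real.log g) * 1 :=
                  mul_le_mul_of_nonneg_left (χ.norm_le_one _) (by linarith)
              _ ≤ δ := by linarith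
          · rw [if_neg hp, if_neg hp]
            simp only [Complex.ofReal_zero, zero_mul, mul_zero, sub_zero, norm_zero]
            exact hδ0.le
      _ = ((v : ℝ) - u) * δ := by
          rw [sum_const, Nat.card_Ioc, nsmul_eq_mul, Nat.cast_sub huv.le]
      _ ≤ δ * (2 * δ * g + 1) := by
          rw [mul_comm]
          gcongr
  -- the conclusion
  have b4 : ‖S‖ ≤ 6 * g / L ^ (K + 1) + 2 * √(v : ℝ) * Real.log v + δ * (2 * δ * g + 1) := by
    have a1 : ‖S‖ ≤ ‖(Real.log g : ℂ) * S‖ := by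
      rw [norm_mul, Complex.norm_real, Real.norm_eq_abs, abs_of_nonneg (by linarith)]
      exact le_mul_of_one_le_left (norm_nonneg _) hlg
    have a2 : (Real.log g : ℂ) * S = S2 - (S2 - S1) - (S1 - (Real.log g : ℂ) * S) := by ring
    rw [a2] at a1
    refine a1.trans ((norm_sub_le _ _).trans (add_le_add ((norm_sub_le _ _).trans (add_le_add b1 b2)) b3))
  refine b4.trans ?_
  rw [← div_eq_mul_inv, le_div_iff₀ (by positivity)]
  have c1 : 6 * g / L ^ (K + 1) * L ^ K ≤ g / 4 := by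
    have : 6 * g / L ^ (K + 1) * L ^ K = 6 * g / L := by
      rw [pow_succ]
      field_simp
    rw [this, div_le_div_iff₀ hL0 (by norm_num)]
    nlinarith
  have c2 : 2 * √(v : ℝ) * Real.log v * L ^ K ≤ g / 4 := by
    obtain ⟨s, hs⟩ : ∃ s, s = √g := ⟨_, rfl⟩
    have hs2 : s * s = g := by rw [hs]; exact Real.mul_self_sqrt hg0.le
    have hs0 : 0 < s := by rw [hs]; exact Real.sqrt_pos.2 hg0
    have d1 : √(v : ℝ) ≤ 2 * s := by
      rw [Real.sqrt_le_left (by positivity)]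
      nlinarith
    have d2 : Real.log v ≤ L := by
      rw [hL]
      exact Real.log_le_log (by exact_mod_cast hv1) (by exact_mod_cast hvN)
    have d3 : 16 * (L * L ^ K) ≤ s := by
      have e1 : (16 * (L * L ^ K)) ^ 2 ≤ s ^ 2 := by
        have e2 : (16 * (L * L ^ K)) ^ 2 = 256 * L ^ (2 * K + 2) := by ring
        have e3 : L ^ (2 * K + 4) = L ^ 2 * L ^ (2 * K + 2) := by ring
        have e4 : 768 * L ^ (2 * K + 2) ≤ L ^ 2 * L ^ (2 * K + 2) := by
          gcongr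
          nlinarith
        rw [e2, sq s, hs2]
        linarith
      exact (pow_le_pow_iff_left₀ (by positivity) hs0.le two_ne_zero).1 e1
    have d4 : 0 ≤ Real.log v := Real.log_natCast_nonneg v
    calc 2 * √(v : ℝ) * Real.log v * L ^ K ≤ 2 * (2 * s) * L * L ^ K := by gcongr
      _ = s * (16 * (L * L ^ K)) / 4 := by ring
      _ ≤ s * s / 4 := by gcongr
      _ = g / 4 := by rw [hs2]
  have c3 : δ * (2 * δ * g + 1) * L ^ K ≤ g / 2 := by
    have d1 : δ * δ * L ^ K * 8 ≤ 1 := by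
      calc δ * δ * L ^ K * 8 ≤ δ * δ * L ^ K * L ^ 2 := by
            gcongr
            nlinarith
        _ = δ * δ * L ^ (K + 2) := by ring
        _ ≤ 1 := hδ2
    have d2 : L ^ K * 4 ≤ g := by
      have e1 : L ^ (2 * K + 4) = L ^ K * (L ^ K * L ^ 4) := by ring
      have e2 : 1 ≤ L ^ K := one_le_pow₀ hLo
      have e3 : 12 ≤ L ^ K * L ^ 4 := by
        calc (12 : ℝ) ≤ 1 * 1000 ^ 4 := by norm_num
          _ ≤ L ^ K * L ^ 4 := by gcongr
      have e4 : L ^ K * 12 ≤ L ^ K * (L ^ K * L ^ 4) := by gcongr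
      linarith
    have d3 : δ * L ^ K ≤ L ^ K := mul_le_of_le_one_left (by positivity) hδ1
    calc δ * (2 * δ * g + 1) * L ^ K = (δ * δ * L ^ K * 8) * g / 4 + δ * L ^ K := by ring
      _ ≤ 1 * g / 4 + L ^ K := by gcongr
      _ ≤ g / 2 := by linarith
  calc (6 * g / L ^ (K + 1) + 2 * √(v : ℝ) * Real.log v + δ * (2 * δ * g + 1)) * L ^ K =
      6 * g / L ^ (K + 1) * L ^ K + 2 * √(v : ℝ) * Real.log v * L ^ K + δ * (2 * δ * g + 1) * L ^ K := by ring
    _ ≤ g / 4 + g / 4 + g / 2 := add_le_add (add_le_add c1 c2) c3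
    _ = g := by ring

end Pool.Agent.T9h57.LM
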