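import Pool.Agent.T9h57.PK.Psi2

/-!
# Prime sums twisted by characters to moduli with small radical, in the range `log x ≥ κ log d`

Adapted from `PK/Psi`, `PK/Psi2`.
-/

set_option autoImplicit false

namespace Pool.Agent.T9h57.LM

open Finset Filter Topology
open Pool.Agent.N728.SP Pool.Agent.H378R2 Pool.Agent.H378R2.M1
open Pool.Agent.T9h57.PK

/-- the tent-weighted sums -/
theorem tentK {m : ℕ} (hm : 3 ≤ m) {κ : ℝ} (hκ : 0 < κ) (hκ1 : κ ≤ 1) (U : ℕ) : ∀ᶠ y : ℝ in atTop, SumsAt m y →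
    ∀ (d : ℕ) [NeZero d], Real.log d ≤ y ^ (2 * m) → Real.log (rad d) ≤ y ^ m →
    ∀ χ : DirichletCharacter ℂ d, χ ^ 2 ≠ 1 →
    ∀ X : ℝ, 0 < X → κ * y ^ (2 * m) / 8 ≤ Real.log X → Real.log X ≤ 2 * y ^ (2 * m) →
      ‖psiPhi χ X‖ ≤ X / y ^ U := by
  obtain ⟨C, hC1, hC⟩ := vM_sum_bound
  filter_upwards [eventually_ge_atTop (16 / κ : ℝ), zone hm (4 * m + U + 1), ev_log (8 * (2 * m + U + 1 : ℕ) / κ) 3,
    ev_log 4 2, eventually_ge_atTop (16 * (2 + 4 * C)),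
    Real.tendsto_log_atTop.eventually_ge_atTop 1] with y hy16 hz hy1 hy2 hy3 hly1 hS d _ hd hR χ hχ2 X hX0 hX1 hX2
  have hyκ : 16 ≤ κ * y := by
    rw [div_le_iff₀ hκ] at hy16
    linarith
  have hyp0 : 0 < y := lt_of_lt_of_le (by positivity) hy16
  have hy16 : 16 ≤ y := by nlinarith
  have hy8 : 8 ≤ y := by linarith
  have hχ : χ ≠ 1 := by
    rintro rfl
    exact hχ2 (one_pow 2)
  have hyp : 0 < y := by linarith
  have hyo : 1 ≤ y := by linarith
  have hly : 0 < Real.log y := by linarith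
  obtain ⟨V, hV⟩ : ∃ V : ℝ, V = y ^ (2 * m - 1) := ⟨_, rfl⟩
  have hyV : y ^ (2 * m) = y * V := by
    rw [hV, ← pow_succ']
    congr 1
    omega
  have hV8 : 8 ≤ V := by
    rw [hV]
    exact hy8.trans (le_self_pow₀ hyo (by omega))
  have hV0 : 0 < V := by linarith
  obtain ⟨δ, hδ⟩ : ∃ δ : ℝ, δ = 1 / (V * Real.log y ^ 2) := ⟨_, rfl⟩
  have hδ0 : 0 < δ := by rw [hδ]; positivity
  have hδ4 : δ ≤ 1 / 4 := by
    rw [hδ]
    apply one_div_le_one_div_of_le (by norm_num)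
    have : 1 ≤ Real.log y ^ 2 := one_le_pow₀ hly1
    nlinarith
  have hlX : 1 < Real.log X := by
    rw [hyV] at hX1
    have h1 : 16 * 8 ≤ (κ * y) * V := mul_le_mul hyκ hV8 (by norm_num) (by linarith)
    have h2 : κ * (y * V) / 8 = (κ * y) * V / 8 := by ring
    linarith
  have hlX0 : 0 < Real.log X := by linarith
  have hX1' : 1 ≤ X := by
    by_contra hcon
    push Not at hcon
    have := Real.log_nonpos hX0.le hcon.le
    linarith
  -- `δ log X ≥ y / (2 (log y)^2)`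
  have hδX : (2 * m + U + 1 : ℕ) * Real.log y ≤ δ * Real.log X := by
    have h1 : κ * y / (8 * Real.log y ^ 2) ≤ δ * Real.log X := by
      calc κ * y / (8 * Real.log y ^ 2) = δ * (κ * y ^ (2 * m) / 8) := by
            rw [hδ, hyV]
            field_simp
        _ ≤ _ := by gcongr
    refine le_trans ?_ h1
    rw [le_div_iff₀ (by positivity)]
    calc ((2 * m + U + 1 : ℕ) : ℝ) * Real.log y * (8 * Real.log y ^ 2) =
          κ * (8 * ((2 * m + U + 1 : ℕ) : ℝ) / κ * Real.log y ^ 3) := by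
            field_simp
      _ ≤ κ * y := mul_le_mul_of_nonneg_left hy1 hκ.le
  have hδX1 : 1 ≤ δ * Real.log X := by
    refine le_trans ?_ hδX
    have h1 : (1 : ℝ) ≤ ((2 * m + U + 1 : ℕ) : ℝ) := by
      exact_mod_cast (by omega : 1 ≤ 2 * m + U + 1)
    nlinarith
  obtain ⟨c, hc⟩ : ∃ c : ℝ, c = 1 + 1 / Real.log X := ⟨_, rfl⟩
  have hc1 : 1 < c := by
    rw [hc]
    have : 0 < 1 / Real.log X := by positivity
    linarith
  have hcδ : c ≤ 1 + δ := by
    rw [hc]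
    have h2 : 1 / Real.log X ≤ δ := by
      rw [div_le_iff₀ hlX0]; linarith
    linarith
  have hXc : X ^ c ≤ 3 * X := by
    rw [hc, Real.rpow_add hX0, Real.rpow_one]
    have h1 : X ^ (1 / Real.log X) = Real.exp 1 := by
      rw [Real.rpow_def_of_pos hX0, mul_one_div_cancel hlX0.ne']
    rw [h1]
    have := Real.exp_one_lt_d9
    nlinarith
  have hA : ∑' n : ℕ, ArithmeticFunction.vonMangoldt n * (n : ℝ) ^ (-c) ≤
      C * (Real.log X) ^ 2 := by
    refine (hC c hc1 (by linarith)).trans (le_of_eq ?_)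
    have h1 : c - 1 = 1 / Real.log X := by rw [hc]; ring
    rw [h1]
    field_simp
  obtain ⟨T, hT⟩ : ∃ T : ℝ, T = y ^ (4 * m + U + 1) := ⟨_, rfl⟩
  have hT1 : 1 ≤ T := by rw [hT]; exact one_le_pow₀ hyo
  have hT0 : 0 < T := by linarith
  have hcont := contour χ hχ hX1' hc1 hδ0 hδ4 hcδ hXc hT1 (M := y ^ (2 * m)) (by positivity) hA (by
    intro s h1 h2
    refine hz hS d hd hR χ hχ2 s ?_ ?_
    · rw [← hV, ← hδ]
      exact h1
    · rw [← hT]
      exact h2)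
  refine hcont.trans ?_
  obtain ⟨Y, hY⟩ : ∃ Y : ℝ, Y = y ^ (U + 1) := ⟨_, rfl⟩
  have hY0 : 0 < Y := by rw [hY]; positivity
  have hy2m : 0 < y ^ (2 * m) := by positivity
  have t1 : X ^ (1 - δ) * y ^ (2 * m) ≤ X / Y := by
    have h1 : X ^ (1 - δ) ≤ X / (y ^ (2 * m) * Y) := by
      rw [Real.rpow_sub hX0, Real.rpow_one]
      apply div_le_div_of_nonneg_left hX0.le (by positivity)
      have e : y ^ (2 * m) * Y = Real.exp ((2 * m + U + 1 : ℕ) * Real.log y) := by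
        rw [Real.exp_nat_mul, Real.exp_log hyp, hY, ← pow_add]
        congr 1
      rw [e, Real.rpow_def_of_pos hX0]
      apply Real.exp_le_exp.2
      linarith
    calc X ^ (1 - δ) * y ^ (2 * m) ≤ X / (y ^ (2 * m) * Y) * y ^ (2 * m) := by gcongr
      _ = X / Y := by field_simp
  have t2 : X * y ^ (2 * m) / T ^ 2 ≤ X / Y := by
    rw [div_le_div_iff₀ (by positivity) hY0, hT, hY, mul_assoc, ← pow_add, ← pow_mul]
    apply mul_le_mul_of_nonneg_left _ hX0.le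
    exact pow_le_pow_right₀ hyo (by omega)
  have t3 : X * (C * Real.log X ^ 2) / T ≤ 4 * C * (X / Y) := by
    have h1 : Real.log X ^ 2 ≤ 4 * y ^ (4 * m) := by
      calc Real.log X ^ 2 ≤ (2 * y ^ (2 * m)) ^ 2 := by gcongr
        _ = 4 * y ^ (4 * m) := by
            rw [mul_pow, ← pow_mul]
            norm_num
            ring_nf
    calc X * (C * Real.log X ^ 2) / T ≤ X * (C * (4 * y ^ (4 * m))) / T := by gcongr
      _ = 4 * C * (X * (y ^ (4 * m) / T)) := by ring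
      _ = 4 * C * (X * (1 / Y)) := by
          congr 2
          rw [hT, hY]
          have : y ^ (4 * m + U + 1) = y ^ (4 * m) * y ^ (U + 1) := by
            rw [← pow_add]
            congr 1
          rw [this]
          field_simp
      _ = _ := by ring
  have hYU : X / Y = X / y ^ U / y := by
    rw [hY, pow_succ, div_div]
  have hXU : 0 < X / y ^ U := by positivity
  calc 16 * (X ^ (1 - δ) * y ^ (2 * m) + X * y ^ (2 * m) / T ^ 2 + X * (C * Real.log X ^ 2) / T)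
      ≤ 16 * (X / Y + X / Y + 4 * C * (X / Y)) := by gcongr
    _ = 16 * (2 + 4 * C) * (X / Y) := by ring
    _ ≤ y * (X / Y) := by gcongr
    _ = X / y ^ U := by
        rw [hYU]
        field_simp

/-- logarithmic weights -/
theorem plK {m : ℕ} (hm : 3 ≤ m) {κ : ℝ} (hκ : 0 < κ) (hκ1 : κ ≤ 1) (U : ℕ) : ∀ᶠ y : ℝ in atTop, SumsAt m y →
    ∀ (d : ℕ) [NeZero d], Real.log d ≤ y ^ (2 * m) → Real.log (rad d) ≤ y ^ m →
    ∀ χ : DirichletCharacter ℂ d, χ ^ 2 ≠ 1 →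
    ∀ x : ℝ, 0 < x → κ / 5 * y ^ (2 * m) ≤ Real.log x → Real.log x ≤ 2 * y ^ (2 * m) →
      ‖PL (cL χ) x‖ ≤ x / y ^ U := by
  obtain ⟨G, hG⟩ : ∃ G : ℕ, G = U + 4 * m + 3 := ⟨_, rfl⟩
  filter_upwards [eventually_ge_atTop (8 : ℝ), tentK hm hκ hκ1 (U + 3), ev_log (32 * G / κ) 1,
    Real.tendsto_log_atTop.eventually_ge_atTop 1] with y hy8 htent hy1 hly1 hS d _ hd hR χ hχ2 x hx0 hx1 hx2
  have hyp : 0 < y := by linarith
  have hyo : 1 ≤ y := by linarith
  have hly : 0 < Real.log y := by linarith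
  rw [pow_one] at hy1
  obtain ⟨Y, hY⟩ : ∃ Y : ℝ, Y = y ^ (2 * m) := ⟨_, rfl⟩
  have hyY : y ≤ Y := by
    rw [hY]
    exact le_self_pow₀ hyo (by omega)
  rw [← hY] at hx1 hx2
  have hG3 : (3 : ℝ) ≤ G := by
    rw [hG]
    exact_mod_cast (by omega : 3 ≤ U + 4 * m + 3)
  obtain ⟨K, hK⟩ : ∃ K : ℕ, K = ⌈2 * (G * Real.log y)⌉₊ := ⟨_, rfl⟩
  have hK1 : 2 * (G * Real.log y) ≤ (K : ℝ) := by rw [hK]; exact Nat.le_ceil _
  have hGl : 1 ≤ G * Real.log y := by nlinarith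
  have hK2 : (K : ℝ) ≤ 2 * (G * Real.log y) + 1 := by
    rw [hK]
    exact (Nat.ceil_lt_add_one (by positivity)).le
  have hy1' : 32 * (G : ℝ) * Real.log y ≤ κ * y := by
    calc 32 * (G : ℝ) * Real.log y = κ * (32 * G / κ * Real.log y) := by field_simp
      _ ≤ κ * y := mul_le_mul_of_nonneg_left hy1 hκ.le
  have hK3' : 8 * (K : ℝ) ≤ κ * y := by nlinarith
  have hK3 : 8 * (K : ℝ) ≤ y := by nlinarith
  have hK0 : 1 ≤ K := by
    rw [hK]
    exact Nat.one_le_ceil_iff.2 (by positivity)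
  have hK0r : (1 : ℝ) ≤ K := by exact_mod_cast hK0
  have hE : Real.exp (-((K : ℝ) / 2)) ≤ 1 / y ^ G := by
    have e : (1 : ℝ) / y ^ G = Real.exp (-(G * Real.log y)) := by
      rw [Real.exp_neg, Real.exp_nat_mul, Real.exp_log hyp, one_div]
    rw [e]
    apply Real.exp_le_exp.2
    linarith
  have hκY : κ * y ≤ κ * Y := mul_le_mul_of_nonneg_left hyY hκ.le
  have hlow : κ * Y / 8 ≤ Real.log (x * Real.exp (-((K : ℝ) / 2))) := by
    rw [Real.log_mul hx0.ne' (Real.exp_pos _).ne', Real.log_exp]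
    linarith
  have hxe0 : 0 < x * Real.exp (-((K : ℝ) / 2)) := by positivity
  have hκY0 : 0 < κ * Y := by
    have : 0 < κ * y := by positivity
    linarith
  have hlow1 : 1 ≤ x * Real.exp (-((K : ℝ) / 2)) := by
    by_contra hcon
    push Not at hcon
    have := Real.log_nonpos hxe0.le hcon.le
    linarith
  have hT := Pool.Agent.N457.SP.t_TEL (cL χ) x (1 / y ^ (U + 3)) (4 * y ^ (4 * m)) K hK0 (by positivity)
    (by positivity) hlow1 (by
      intro z hz1 hz2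
      have hz0 : 0 < z := lt_of_lt_of_le hxe0 hz1
      have e := Pool.Agent.N475.SP.PP_eq χ z
      have e2 : PP (cL χ) z = psiPhi χ z := e
      rw [e2]
      have h1 := htent hS d hd hR χ hχ2 z hz0 (by
        rw [← hY]
        exact hlow.trans (Real.log_le_log hxe0 hz1)) (by
        rw [← hY]
        exact (Real.log_le_log hz0 hz2).trans hx2)
      refine h1.trans (le_of_eq ?_)
      ring)
    (by
      intro z hz1 hz2
      have h1 := Pool.Agent.N475.SP.PL_triv χ z hz1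
      have e2 : PL (cL χ) z = PL (fun n => ((ArithmeticFunction.vonMangoldt n : ℝ) : ℂ) * χ (n : ZMod d)) z := rfl
      rw [e2]
      refine h1.trans ?_
      have hz0 : 0 < z := by linarith
      have h2 : 0 ≤ Real.log z := Real.log_nonneg hz1
      have h3 : Real.log z ≤ 2 * Y := (Real.log_le_log hz0 hz2).trans hx2
      have h4 : Real.log z ^ 2 ≤ 4 * y ^ (4 * m) := by
        calc Real.log z ^ 2 ≤ (2 * Y) ^ 2 := by gcongr
          _ = 4 * y ^ (4 * m) := by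
              rw [hY, mul_pow, ← pow_mul]
              norm_num
              ring_nf
      gcongr)
  refine hT.trans ?_
  obtain ⟨Z, hZ⟩ : ∃ Z : ℝ, Z = x / y ^ (U + 3) := ⟨_, rfl⟩
  have hZ0 : 0 < Z := by rw [hZ]; positivity
  have s1 : (4 * (K : ℝ) + 1) * (4 * y ^ (4 * m)) * x * Real.exp (-(K / 2)) ≤ (4 * (K : ℝ) + 1) * 4 * Z := by
    calc (4 * (K : ℝ) + 1) * (4 * y ^ (4 * m)) * x * Real.exp (-(K / 2)) ≤
          (4 * (K : ℝ) + 1) * (4 * y ^ (4 * m)) * x * (1 / y ^ G) := by gcongr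
      _ = (4 * (K : ℝ) + 1) * 4 * Z := by
          have e : y ^ G = y ^ (4 * m) * y ^ (U + 3) := by
            rw [← pow_add, hG]
            congr 1
            ring
          rw [e, hZ]
          field_simp
  have s2 : (K : ℝ) ^ 2 * (1 / y ^ (U + 3)) * x = K ^ 2 * Z := by
    rw [hZ]
    ring
  rw [s2]
  have hxU : x / y ^ U = y ^ 3 * Z := by
    rw [hZ, pow_add]
    field_simp
  rw [hxU]
  have h5 : (4 * (K : ℝ) + 1) * 4 + (K : ℝ) ^ 2 ≤ y ^ 3 := by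
    have h6 : (K : ℝ) ≤ y / 8 := by linarith
    have h7 : (K : ℝ) ^ 2 ≤ (y / 8) ^ 2 := by gcongr
    have h8 : y ^ 3 = y * (y * y) := by ring
    have h9 : 8 * (y * y) ≤ y * (y * y) := by nlinarith
    have h10 : 8 * y ≤ y * y := by nlinarith
    rw [h8]
    nlinarith
  calc (4 * (K : ℝ) + 1) * (4 * y ^ (4 * m)) * x * Real.exp (-(K / 2)) + K ^ 2 * Z
      ≤ (4 * (K : ℝ) + 1) * 4 * Z + K ^ 2 * Z := by linarith
    _ = ((4 * (K : ℝ) + 1) * 4 + (K : ℝ) ^ 2) * Z := by ring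
    _ ≤ y ^ 3 * Z := by gcongr

/-- prime sums -/
theorem psiK {m : ℕ} (hm : 3 ≤ m) {κ : ℝ} (hκ : 0 < κ) (hκ1 : κ ≤ 1) (U : ℕ) : ∀ᶠ y : ℝ in atTop, SumsAt m y →
    ∀ (d : ℕ) [NeZero d], Real.log d ≤ y ^ (2 * m) → Real.log (rad d) ≤ y ^ m →
    ∀ χ : DirichletCharacter ℂ d, χ ^ 2 ≠ 1 →
    ∀ x : ℝ, 1 ≤ x → κ / 4 * y ^ (2 * m) ≤ Real.log x → Real.log x ≤ y ^ (2 * m) →
      ‖∑ n ∈ Icc 1 ⌊x⌋₊, cL χ n‖ ≤ x / y ^ U := by
  obtain ⟨W, hW⟩ : ∃ W : ℕ, W = 2 * m + U + 2 := ⟨_, rfl⟩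
  obtain ⟨a, ha⟩ := Pool.Agent.N475.SP.dom 3 (κ / 5) (2 * m + U + 1) (by positivity)
  filter_upwards [eventually_ge_atTop (16 : ℝ), plK hm hκ hκ1 (W + U + 2), eventually_ge_atTop a]
    with y hy16 hpl hya hS d _ hd hR χ hχ2 x hx hc hlx
  have hyp : 0 < y := by linarith
  have hyo : 1 ≤ y := by linarith
  have hx0 : 0 < x := by linarith
  have ha1 := ha y hya
  obtain ⟨Y, hY⟩ : ∃ Y : ℝ, Y = y ^ (2 * m) := ⟨_, rfl⟩
  have hyY : y ≤ Y := by
    rw [hY]
    exact le_self_pow₀ hyo (by omega)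
  have hY16 : 16 ≤ Y := by linarith
  have hlx0 : 0 ≤ Real.log x := Real.log_nonneg hx
  have hyU0 : 0 < y ^ U := by positivity
  have hdom : 3 * (Y * y ^ U * y) ≤ Real.exp (κ * Y / 5) := by
    calc 3 * (Y * y ^ U * y) = 3 * y ^ (2 * m + U + 1) := by
          rw [hY, ← pow_add, ← pow_succ]
      _ ≤ Real.exp (κ / 5 * y) := ha1
      _ ≤ _ := Real.exp_le_exp.2 (by
        have := mul_le_mul_of_nonneg_left hyY hκ.le
        linarith)
  rw [← hY] at hc
  have hκY0 : 0 ≤ κ * Y := by positivity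
  obtain ⟨h, hh⟩ : ∃ h : ℝ, h = 1 / y ^ W := ⟨_, rfl⟩
  have hyW : 1 ≤ y ^ W := one_le_pow₀ hyo
  have hh0 : 0 < h := by rw [hh]; positivity
  have hh1 : h ≤ 1 := by
    rw [hh, div_le_one (by positivity)]
    exact hyW
  have hsh := sharp hx hh0 hh1 (cL χ) (norm_cL χ)
  have he3 : Real.exp h ≤ 3 := by
    have h1 := Real.exp_le_exp.2 hh1
    have := Real.exp_one_lt_d9
    linarith
  have hx'0 : 0 < x * Real.exp h := by positivity
  have hlx' : Real.log (x * Real.exp h) = Real.log x + h := by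
    rw [Real.log_mul hx0.ne' (Real.exp_pos _).ne', Real.log_exp]
  have hlxY : Real.log x ≤ Y := by rw [hY]; exact hlx
  have p1 := hpl hS d hd hR χ hχ2 (x * Real.exp h) hx'0 (by rw [hlx', ← hY]; linarith)
    (by rw [hlx', ← hY]; linarith)
  have p2 := hpl hS d hd hR χ hχ2 x hx0 (by rw [← hY]; linarith) (by rw [← hY]; linarith)
  have p3 : x * Real.exp h / y ^ (W + U + 2) ≤ 3 * (x / y ^ (W + U + 2)) := by
    calc x * Real.exp h / y ^ (W + U + 2) ≤ x * 3 / y ^ (W + U + 2) := by gcongr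
      _ = _ := by ring
  obtain ⟨S, hS'⟩ : ∃ S : ℝ, S = ‖∑ n ∈ Icc 1 ⌊x⌋₊, cL χ n‖ := ⟨_, rfl⟩
  rw [← hS'] at hsh ⊢
  have h1 : h * S ≤ h * (4 * (x / y ^ (U + 2)) + (2 * Y) * (2 * h * x + 1)) := by
    have e1 : x / y ^ (W + U + 2) = h * (x / y ^ (U + 2)) := by
      rw [hh, add_assoc, pow_add]
      field_simp
    have e2 : h * ((Real.log x + 1) * (2 * h * x + 1)) ≤ h * ((2 * Y) * (2 * h * x + 1)) := by
      gcongr
      linarith
    rw [e1] at p2 p3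
    nlinarith
  have h2 : S ≤ 4 * (x / y ^ (U + 2)) + (2 * Y) * (2 * h * x + 1) := le_of_mul_le_mul_left h1 hh0
  have h3 : Y * (h * x) = x / y ^ (U + 2) := by
    rw [hh, hY, hW]
    have : y ^ (2 * m + U + 2) = y ^ (2 * m) * y ^ (U + 2) := by
      rw [← pow_add]
      congr 1
    rw [this]
    field_simp
  have h4 : 2 * Y ≤ x / y ^ (U + 1) := by
    rw [le_div_iff₀ (by positivity)]
    have h5 : Real.exp (κ * Y / 5) ≤ x := by
      rw [← Real.exp_log hx0]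
      apply Real.exp_le_exp.2
      linarith
    have h6 : Y * y ^ (U + 1) = Y * y ^ U * y := by ring
    have h7 : 0 ≤ Y * y ^ U * y := by positivity
    calc 2 * Y * y ^ (U + 1) = 2 * (Y * y ^ U * y) := by rw [mul_assoc, h6]
      _ ≤ 3 * (Y * y ^ U * y) := by linarith
      _ ≤ x := hdom.trans h5
  have h5 : S ≤ 8 * (x / y ^ (U + 2)) + x / y ^ (U + 1) := by
    have e : (2 * Y) * (2 * h * x + 1) = 4 * (Y * (h * x)) + 2 * Y := by ring
    rw [e, h3] at h2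
    linarith
  have h6 : x / y ^ (U + 1) = x / y ^ U * (1 / y) := by
    rw [pow_succ]
    field_simp
  have h7 : x / y ^ (U + 2) = x / y ^ U * (1 / y * (1 / y)) := by
    rw [pow_succ, pow_succ]
    field_simp
  have h8 : 1 / y ≤ 1 / 16 := one_div_le_one_div_of_le (by norm_num) hy16
  have h9 : 0 < 1 / y := by positivity
  have h10 : 0 < x / y ^ U := by positivity
  rw [h6, h7] at h5
  have h12 : 8 * (1 / y * (1 / y)) + 1 / y ≤ 1 := by nlinarith
  calc S ≤ 8 * (x / y ^ U * (1 / y * (1 / y))) + x / y ^ U * (1 / y) := h5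
    _ = x / y ^ U * (8 * (1 / y * (1 / y)) + 1 / y) := by ring
    _ ≤ x / y ^ U * 1 := by gcongr
    _ = _ := mul_one _

/-- prime sums, for all levels at once -/
theorem mainK {κ : ℝ} (hκ : 0 < κ) (hκ1 : κ ≤ 1) : ∃ m : ℕ, 3 ≤ m ∧ ∀ U : ℕ, ∃ y1 : ℝ, 1 ≤ y1 ∧ ∀ y : ℝ, y1 ≤ y →
    ∀ (d : ℕ) [NeZero d], Real.log d ≤ y ^ (2 * m) → Real.log (rad d) ≤ y ^ m →
    ∀ χ : DirichletCharacter ℂ d, χ ^ 2 ≠ 1 →
    ∀ x : ℝ, 1 ≤ x → κ / 4 * y ^ (2 * m) ≤ Real.log x → Real.log x ≤ y ^ (2 * m) →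
      ‖∑ n ∈ Icc 1 ⌊x⌋₊, cL χ n‖ ≤ x / y ^ U := by
  obtain ⟨m, hm, y0, hy0, h⟩ := sumsP
  refine ⟨m, hm, fun U => ?_⟩
  obtain ⟨a, ha⟩ := eventually_atTop.1 (psiK hm hκ hκ1 U)
  refine ⟨max 1 (max a y0), le_max_left _ _, fun y hy => ?_⟩
  have h1 : a ≤ y := ((le_max_left _ _).trans (le_max_right _ _)).trans hy
  have h2 : y0 ≤ y := ((le_max_right _ _).trans (le_max_right _ _)).trans hy
  exact ha y h1 (h y h2)

end Pool.Agent.T9h57.LM
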